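import Pool.Agent.H66.TSW.Cgq

/-!
# The closed gradient of the place two with a deep spectator, at the windows of a record

`cgt_use`: `CGt` at the window `t - q` of a record from the property `CgtQ` of the window.
-/

set_option autoImplicit false

namespace Pool.TSC88

open Finset Real MvPolynomial MeasureTheory Filter Topology
open Pool.Agent.H49.Ent Pool.Agent.H32.Dense Pool.STK Pool.KA Pool.KSAT Pool.K2S Pool.PB Pool.S6C
open Pool.GEN Pool.CHT Pool.CHX Pool.ISO Pool.RCD Pool.LA91 Pool.AVG96 Pool.AVG50 Pool.CDX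
open Pool.PKG Pool.AVG57 Pool.TSW66
open Pool.SWP (sw)

/-- **The closed gradient of the place two at the window `t - q` of a record.** -/
theorem cgt_use {Φ : (ℕ → ℝ) → Prop} {C₁ : (ℕ → ℝ) → ℝ} {h εg : ℝ} {cs cs' : ℕ → Cst}
    {K N' k₁ : ℕ}
    {S : PCl 4} {P : List (Fin 4) × Fin 4 → ℝ → ℝ → ℝ} {θ : ℝ} {c : ℕ → Fin 4} {Pt : ℝ → ℝ → ℝ}
    {r : ℝ → ℝ} {L T : ℕ → ℝ → ℝ → ℝ} {κ : ℕ → Kg} {G : Set ℝ} {g : ℝ} (hK1 : 1 ≤ K)
    (hQ : CgtQ Φ C₁ h εg cs cs' (K, N') k₁ S P θ c Pt r L T κ G g) (N : ℕ) :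
    ∃ k₀ : ℕ, ∀ {Sl : ℕ → ℝ} (_ : ∀ l < 4, HasDerivAt (fun x => L l x x) (Sl l) g)
    (_ : Φ (fun l => Sl (sw 1 l)))
    (_ : ∀ l, 1 ≤ l → l ≤ 3 → 1 < Sl l) {X' vj' qr' ξ' μ' ν' X vj qr ξ μ ν dW yp σ K₀ M' M : ℝ}
    (_ : MuC 2 Sl X' vj' qr' ξ' μ' ν' dW yp (cs' K).θ K₀ M' (N' + 1) ((1 / 2) ^ k₀))
    (_ : MuC 2 Sl X vj qr ξ μ ν dW yp (cs K).θ K₀ M (N + 1) ((1 / 2) ^ k₀))
    (_ : M' ≤ M) (_ : M ≤ (N + 1) * M') (_ : 2 ^ k₁ * M' ≤ qr) (_ : qr' + ξ' + μ' < qr)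
    (_ : qr' + ξ' + ν ≤ qr) (_ : ξ < (cs' K).κ * ξ') (_ : μ ≤ μ')
    (_ : ∀ l, 1 ≤ l → l ≤ 2 → Sl l * (X + 1) + C₁ (fun l => Sl (sw 1 l)) * (ξ + μ + ν) ≤ qr)
    (_ : M ≤ (N + 1) * σ) (_ : σ ≤ μ) (_ : ξ + σ ≤ qr) (_ : ξ' + σ ≤ qr') (_ : 0 ≤ K₀)
    {al : ℝ} {g₀ : ℝ → ℝ} {P₂ : ℕ → List (Fin 4) × Fin 4 → ℝ → ℝ → ℝ} {θ₂ Eb e₂ : ℕ → ℝ}
    {S₀ N₀ : ℕ} {A V : ℕ → ℝ} {S₂ N₂ : ℕ} {V' : ℕ → ℝ} {K' ε q t : ℝ}
    (_ : RecG S al g₀ P θ P₂ θ₂ Eb e₂ c Pt r h K₀ g L T Sl κ G S₀ N₀ A V S₂ N₂ V' K' ε q t)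
    (_ : ε ≤ (1 / 2) ^ k₀ * M) (_ : ε ≤ 1) (_ : (K₀ + 1) * (Sl 3 + 1) + M ≤ K')
    (_ : yp + 4 ≤ K') (_ : M * q < (1 / 2) ^ k₀) (_ : t - q ∈ G)
    (_ : LbR S c 1 K (fun w l => L l w w) G g (2 ^ k₀ * (M * q)) (2 ^ k₀ * (M * q))
      ((1 / 2) ^ k₀ * (M * q)) 3),
    CGt S c K (t - q) (dW * q) (t + vj' * q) (t + X' * q) (t + vj * q) (t + X * q)
      (fun l => L l (t - q) (t - q) - yp * q) (fun l => L l (t - q) (t - q)) (qr' * q) (ξ' * q)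
      (qr * q) (ξ * q) (μ * q) (σ * q) (cs K).κ (cs K).ι (cs K).k εg := by
  obtain ⟨k₀, hQ⟩ := hQ hK1 N
  refine ⟨k₀, ?_⟩
  intro Sl hd hΦ hS1 X' vj' qr' ξ' μ' ν' X vj qr ξ μ ν dW yp σ K₀ M' M Nm' Nm hMM hMN hk₁ hqq hqν
    hξξ hμμ hC₁ hσN hσμ hσ1 hσ2 hK₀ al g₀ P₂ θ₂ Eb e₂ S₀ N₀ A V S₂ N₂ V' K' ε q t R hε hε1 hK' hyK hq hG
    hLb
  have hq0 := R.q0
  have hM1 := Nm.M1
  have hM1' := Nm'.M1
  have hM0 : 0 < M := by linarith
  have hMq : 0 < M * q := mul_pos hM0 hq0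
  have hng := R.near
  have hs1 := hS1 3 (by omega) le_rfl
  have hK0' : K₀ ≤ K' := by nlinarith
  have hC1 : (1 : ℝ) ≤ N + 1 := by linarith [Nat.cast_nonneg (α := ℝ) N]
  have hC1' : (1 : ℝ) ≤ N' + 1 := by linarith [Nat.cast_nonneg (α := ℝ) N']
  have hK1' : 1 ≤ K' := by nlinarith
  have nr : ∀ {a M₁ : ℝ}, K₀ + |a| ≤ M₁ → |t + a * q - g| ≤ M₁ * q := by
    intro a M₁ ha
    have e1 : t + a * q - g = (t - g) + a * q := by ring
    rw [e1]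
    refine (abs_add_le _ _).trans ?_
    rw [abs_mul, abs_of_pos hq0]
    nlinarith
  have nw : |t - q - g| ≤ M' * q := by
    have h1 := nr (a := -1) (M₁ := M') (by rw [abs_neg, abs_one]; exact hM1')
    have e1 : t + (-1) * q - g = t - q - g := by ring
    rwa [e1] at h1
  have hgt : |L 3 g g - L 3 t t| ≤ (Sl 3 * K₀ + 1) * q := by
    have h1 : |g - t| ≤ K₀ * q := by rw [abs_sub_comm]; exact hng
    have h2 := R.dL 3 (by omega) g (h1.trans (mul_le_mul_of_nonneg_right hK0' hq0.le))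
    have h3 : |Sl 3 * (g - t)| ≤ Sl 3 * K₀ * q := by
      rw [abs_mul, abs_of_pos (by linarith : (0 : ℝ) < Sl 3), mul_assoc]
      exact mul_le_mul_of_nonneg_left h1 (by linarith)
    have h4 := abs_le.1 h2
    have h5 := abs_le.1 h3
    have h6 : ε * q ≤ 1 * q := mul_le_mul_of_nonneg_right hε1 hq0.le
    rw [abs_le]
    constructor <;> nlinarith [h4.1, h4.2, h5.1, h5.2]
  have hK'' : (K₀ + 1) * (Sl (2 + 1) + 1) + M' ≤ K' := by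
    show (K₀ + 1) * (Sl 3 + 1) + M' ≤ K'
    linarith
  have ht0 := R.t0
  have ht1 := R.t1
  have hlow0 : t - q ≤ L 0 (t - q) (t - q) :=
    R.low_at (i := 0) (by norm_num) (by nlinarith) le_rfl (by nlinarith)
  refine hQ Sl (fun l _ hl => hd l (by omega)) hΦ hS1 (M * q) hMq hq ?_ hLb (t - q) hG (M' * q)
    (t + vj' * q) (t + X' * q) (t + vj * q) (t + X * q)
    (mul_le_mul_of_nonneg_right hMM hq0.le) ?_ nw (nr Nm'.Mj) (nr Nm'.MX) (nr Nm.Mj) (nr Nm.MX)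
    (dW * q) (qr' * q) (ξ' * q) (μ' * q) (ν' * q) (qr * q) (ξ * q) (μ * q) (ν * q) (yp * q) (σ * q)
    _ _
    (Nm'.bx2 (by omega) hK₀ hC1' R hε1 hK'' hs1 hyK) (Nm.bx2 (by omega) hK₀ hC1 R hε1 hK' hs1 hyK)
    ?_ ?_ ?_ ?_ ?_ ?_ ?_ ?_ ?_ ?_ ?_ ?_ ?_ ?_ ?_ ?_ (mul_le_mul_of_nonneg_right hμμ hq0.le)
    (fun l l0 l1 => ?_) ?_ (mul_le_mul_of_nonneg_right hσμ hq0.le) ?_ ?_
  · -- the rate
    intro x y hx hy hxy
    have key : ∀ z : ℝ, |z - L 3 g g| ≤ M * q → |z - L (4 - 1) t t| ≤ K' * q := by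
      intro z hz
      show |z - L 3 t t| ≤ K' * q
      have e2 : z - L 3 t t = (z - L 3 g g) + (L 3 g g - L 3 t t) := by
        ring
      rw [e2]
      refine (abs_add_le _ _).trans ((add_le_add hz hgt).trans ?_)
      nlinarith
    refine (R.row x y (key x hx) (key y hy) hxy).trans ?_
    have h1 : ε * q ≤ (1 / 2) ^ k₀ * M * q := mul_le_mul_of_nonneg_right hε hq0.le
    linarith [mul_assoc ((1 / 2 : ℝ) ^ k₀) M q]
  · have := mul_le_mul_of_nonneg_right hMN hq0.le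
    linarith [mul_assoc (N + 1 : ℝ) M' q]
  · show t - q - yp * q ≤ L 0 (t - q) (t - q) - yp * q
    linarith only [hlow0]
  · have := mul_le_mul_of_nonneg_right Nm.ye hq0.le
    linarith [mul_assoc ((1 / 2 : ℝ) ^ k₀) M q]
  · have := mul_le_mul_of_nonneg_right Nm'.Cξ hq0.le
    rw [mul_div_right_comm]
    exact this
  · have := mul_le_mul_of_nonneg_right Nm'.Cν hq0.le
    rw [mul_div_right_comm]
    exact this
  · have := mul_le_mul_of_nonneg_right Nm'.μθ hq0.le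
    linarith [mul_assoc (cs' K).θ ξ' q]
  · have := mul_le_mul_of_nonneg_right Nm'.νθ hq0.le
    linarith [mul_assoc (cs' K).θ ξ' q]
  · have := mul_le_mul_of_nonneg_right Nm'.θq hq0.le
    linarith [mul_assoc (cs' K).θ ξ' q]
  · have := mul_le_mul_of_nonneg_right Nm.Cξ hq0.le
    rw [mul_div_right_comm]
    exact this
  · have := mul_le_mul_of_nonneg_right Nm.Cν hq0.le
    rw [mul_div_right_comm]
    exact this
  · have := mul_le_mul_of_nonneg_right Nm.μθ hq0.le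
    linarith [mul_assoc (cs K).θ ξ q]
  · have := mul_le_mul_of_nonneg_right Nm.νθ hq0.le
    linarith [mul_assoc (cs K).θ ξ q]
  · have := mul_le_mul_of_nonneg_right Nm.θq hq0.le
    linarith [mul_assoc (cs K).θ ξ q]
  · have := mul_le_mul_of_nonneg_right hk₁ hq0.le
    linarith [mul_assoc ((2 : ℝ) ^ k₁) M' q]
  · have := mul_lt_mul_of_pos_right hqq hq0
    linarith
  · have := mul_le_mul_of_nonneg_right hqν hq0.le
    linarith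
  · have := mul_lt_mul_of_pos_right hξξ hq0
    show ξ * q < (cs' K).κ * (ξ' * q)
    linarith [mul_assoc (cs' K).κ ξ' q]
  · have h1 := mul_le_mul_of_nonneg_right (hC₁ l l0 l1) hq0.le
    have h2 : Sl l * (t + X * q - (t - q)) + C₁ (fun l => Sl (sw 1 l)) * (ξ * q + μ * q + ν * q) =
        (Sl l * (X + 1) + C₁ (fun l => Sl (sw 1 l)) * (ξ + μ + ν)) * q := by ring
    rw [h2]
    exact h1
  · rw [div_le_iff₀ (by linarith only [hC1])]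
    have := mul_le_mul_of_nonneg_right hσN hq0.le
    linarith [mul_assoc (N + 1 : ℝ) σ q]
  · have := mul_le_mul_of_nonneg_right hσ1 hq0.le
    linarith
  · have := mul_le_mul_of_nonneg_right hσ2 hq0.le
    linarith

end Pool.TSC88
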