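import Pool.Agent.H88.TSC.Cel
import Pool.Agent.H88.TSC.Use
import Pool.Agent.H31.AVN.Pst
import Pool.Agent.H57.SWB.Jrs

/-!
# The cell `[one, thin, sta]` with a steep thin place, at the windows with the closed gradient

`celQI_cgt`: the class theorem of the cell at a window, from the property `CgtQ` of the windows.
`celQI_ts`: the cell `[one, thin, sta]`. `lCellR_ts`: the cell for all classes, from the a.e. form of
the property.
-/

set_option autoImplicit false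

namespace Pool.TSC88

open Finset Real MvPolynomial MeasureTheory Filter Topology
open Pool.Agent.H49.Ent Pool.Agent.H32.Dense Pool.STK Pool.KA Pool.KSAT Pool.K2S Pool.PB Pool.S6C
open Pool.GEN Pool.CHT Pool.RCD Pool.LA91 Pool.TN
open Pool.AVG57 (Cst MuC)
open Pool.TSW66 (CGt CgtQ)
open Pool.PKG (RecQ RecG Kd Kg ofKd PropG AePG CelQI)
open Pool.CDX (LbR netl_ex)
open Pool.LBR50 (LbNQ recG_lbr)
open Pool.V0F (ChUQ AttUQ)
open Pool.SWP (sw sw_k sw_k1 sw_lt sw_gt AeRs)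

/-- The permutation of the places moves the range `l < 3` to itself. -/
theorem sw3_lt {l : ℕ} (hl : l < 3) : sw 1 l < 3 := by
  have : l = 0 ∨ l = 1 ∨ l = 2 := by omega
  rcases this with rfl | rfl | rfl
  · rw [sw_lt one_pos]; norm_num
  · rw [sw_k]; norm_num
  · have e2 : sw 1 2 = 1 := sw_k1 1
    rw [e2]; norm_num

theorem sw3_inv {l : ℕ} (hl : l ≤ 3) : sw 1 (sw 1 l) = l := by
  have e2 : sw 1 2 = 1 := sw_k1 1
  have e1 : sw 1 1 = 2 := sw_k 1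
  have e3 : sw 1 3 = 3 := sw_gt (by norm_num)
  have e0 : sw 1 0 = 0 := sw_lt one_pos
  have : l = 0 ∨ l = 1 ∨ l = 2 ∨ l = 3 := by omega
  rcases this with rfl | rfl | rfl | rfl
  · rw [e0, e0]
  · rw [e1, e2]
  · rw [e2, e1]
  · rw [e3, e3]

/-- A box of numbers at the swapped slopes is a box at the slopes. -/
theorem boxN_sw {X : ℕ} {Sl : ℕ → ℝ} {Sm ξ qr μ ν vj th : ℝ}
    (N : BoxN 3 X (fun l => Sl (sw 1 l)) Sm ξ qr μ ν vj th) : BoxN 3 X Sl Sm ξ qr μ ν vj th := by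
  have e3 : sw 1 3 = 3 := sw_gt (by norm_num)
  have key : ∀ {φ : ℝ → Prop}, (∀ l < 3, φ (Sl (sw 1 l))) → ∀ l < 3, φ (Sl l) := by
    intro φ h l hl
    have h1 := h (sw 1 l) (sw3_lt hl)
    rwa [sw3_inv hl.le] at h1
  have h3 := N.sb
  have h4 := N.x2
  have h5 := N.j2
  beta_reduce at h3 h4 h5
  rw [e3] at h3 h4 h5
  exact
    { X2 := N.X2
      ξ0 := N.ξ0
      μ0 := N.μ0
      ν0 := N.ν0
      q0 := N.q0
      j0 := N.j0
      jX := N.jX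
      S0 := N.S0
      sm := key (φ := fun x => x ≤ Sm) N.sm
      sb := h3
      μθ := N.μθ
      νθ := N.νθ
      νξ := N.νξ
      jn := fun l hl => by
        rcases Nat.lt_or_ge l 3 with h6 | h6
        · exact key (φ := fun x => x * (vj + 1) + ν ≤ qr) (fun l hl => N.jn l hl.le) l h6
        · have h7 := N.jn 3 le_rfl
          beta_reduce at h7
          rw [e3] at h7
          rwa [show l = 3 by omega]
      xn := key (φ := fun x => x * (X + 1) + ν ≤ qr) N.xn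
      x1 := N.x1
      x2 := h4
      ξq := N.ξq
      θq := N.θq
      j2 := h5 }

/-- The margin of the digits of a box. -/
theorem _root_.Pool.TN.BoxN.mar {X : ℕ} {Sl : ℕ → ℝ} {Sm ξ qr μ ν vj th : ℝ}
    (N : BoxN 3 X Sl Sm ξ qr μ ν vj th) : ξ + ν ≤ qr := by
  have h1 := N.jn 3 le_rfl
  have h2 := N.j2
  have h3 : (Sl 3 - Sm) * (vj + 1) = Sl 3 * (vj + 1) - Sm * (vj + 1) := by ring
  have h4 : 0 ≤ Sm * (vj + 1) := mul_nonneg N.S0 (by linarith only [N.j0])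
  linarith only [h1, h2, h3, h4]

/-- **The property**: the class is maximal for labels, the chain, the labels of the target; the closed
gradient of the place two. -/
def QCgt (Φ : (ℕ → ℝ) → Prop) (C₁ : (ℕ → ℝ) → ℝ) (h : ℝ) (cs cs' : ℕ → Cst) :
    PropG 4 (((Unit ⊕ Unit) ⊕ Unit) ⊕ (ℕ × ℕ)) :=
  sumQ (sumQ (sumQ LbNQ ChUQ) AttUQ) (CgtQ Φ C₁ h (1 / 2) cs cs')

theorem aeRs_qcgt {Φ : (ℕ → ℝ) → Prop} {C₁ : (ℕ → ℝ) → ℝ} {h : ℝ} {cs cs' : ℕ → Cst}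
    (H : AeRs 4 1 (CgtQ Φ C₁ h (1 / 2) cs cs' : PropG 4 (ℕ × ℕ))) :
    AeRs 4 1 (QCgt Φ C₁ h cs cs') :=
  (Pool.PKG.AePG.rs (aePG_sum (aePG_sum (Pool.LBR50.aePG_lbn 4) (Pool.LBR50.her_lbn 4)
    (Pool.V0F.aePG_chU 4)) (her_sum (Pool.LBR50.her_lbn 4) (Pool.V0F.her_chU 4))
    (Pool.V0F.aePG_attU 4))).sum (her_sum (her_sum (Pool.LBR50.her_lbn 4) (Pool.V0F.her_chU 4))
    (Pool.V0F.her_attU 4)) H

/-- **A cell from the closed gradient** of the place two, with a steeper spectator. -/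
theorem celQI_cgt {Sl : ℕ → ℝ} {κ' : ℕ → Kd} {κ : ℕ → Kg}
    (hκi : κ 3 = .stp) (hκ : ∀ l < 3, κ l = ofKd (κ' l)) (hC : CellT 4 Sl κ')
    (h1 : ∀ l ≤ 2, 1 ≤ Sl l) (h2 : ∀ l ≤ 2, Sl l < Sl 3)
    (hS1 : ∀ l, 1 ≤ l → l ≤ 3 → 1 < Sl l) {Φ : (ℕ → ℝ) → Prop} (hΦ : Φ (fun l => Sl (sw 1 l)))
    {C₁ : (ℕ → ℝ) → ℝ} (hC₁ : 0 ≤ C₁ (fun l => Sl (sw 1 l))) {h : ℝ} {cs cs' : ℕ → Cst}
    (hok : ∀ K, (cs K).Ok) (hok' : ∀ K, (cs' K).Ok) :
    CelQI 4 3 h Sl κ (QCgt Φ C₁ h cs cs') := by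
  intro al hal K₀ hK₀ del hdel S₀ hS₀ S g₀ P θ c Pt r L T G g hGc hgG hd hQ
  obtain ⟨ka, hLbN⟩ := hQ (Sum.inl (Sum.inl (Sum.inl ())))
  obtain ⟨_, hChU⟩ := hQ (Sum.inl (Sum.inl (Sum.inr ())))
  obtain ⟨kA, hAtt⟩ := hQ (Sum.inl (Sum.inr ()))
  obtain ⟨D, hD, hlbr⟩ := recG_lbr 4 S₀ (by omega) hS₀
  obtain ⟨D₀, hD₀, hC⟩ := hC S₀ hS₀
  obtain ⟨Dc, hDc⟩ : ∃ Dc, Dc = max D₀ D := ⟨_, rfl⟩
  have hDc1 : D₀ ≤ Dc := by rw [hDc]; exact le_max_left _ _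
  have hDc2 : D ≤ Dc := by rw [hDc]; exact le_max_right _ _
  -- the numbers
  have e3 : sw 1 3 = 3 := sw_gt (by norm_num)
  obtain ⟨X', Sm, ξ', qr', μ', ν', vj', ξ, NA, hξ0, hξκ, HB⟩ := mus_ex (v := 1)
    (Sl := fun l => Sl (sw 1 l)) (fun l hl => h1 _ (by
      have := sw3_lt (show l < 3 by omega)
      omega)) (fun l hl => by
      show Sl (sw 1 l) < Sl (sw 1 3)
      rw [e3]
      exact h2 _ (by
        have := sw3_lt (show l < 3 by omega)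
        omega)) (hok' Dc).κ0
    (hok Dc).κ0 (hok' Dc).θ0 (hok' Dc).θ1 (hok Dc).θ0 (hok Dc).θ1 hC₁ 0
  have hX'0 : (0 : ℝ) ≤ X' := Nat.cast_nonneg X'
  obtain ⟨M', hM'⟩ : ∃ M', M' = K₀ + X' + 1 := ⟨_, rfl⟩
  have hM'1 : 1 ≤ M' := by rw [hM']; linarith
  obtain ⟨N', -, n1, n2, n3⟩ := NA.nat_ex hM'1 0
  obtain ⟨k₁, hCg⟩ := hQ (Sum.inr (Dc, N'))
  obtain ⟨X, qr, μ, ν, vj, dW, τ, NB, yC, yq, -, y1, y2, y3, y4, y5, y6, y7, yτ', yτ, MS⟩ :=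
    HB (2 ^ k₁ * M')
  have hX0 : (0 : ℝ) ≤ X := Nat.cast_nonneg X
  obtain ⟨M, hM⟩ : ∃ M, M = K₀ + X + 1 := ⟨_, rfl⟩
  have hXX : (X' : ℝ) ≤ X := by exact_mod_cast MS.XX
  have hM1 : 1 ≤ M := by rw [hM]; linarith
  have hμ0 := NB.μ0
  have hτ0 := MS.B.t0
  -- the loss of the frame
  obtain ⟨σ, hσ⟩ : ∃ σ : ℝ, σ = min (τ / 2) (μ / 8) := ⟨_, rfl⟩
  have σ0 : 0 < σ := by rw [hσ]; exact lt_min (by positivity) (by positivity)
  have σ1 : σ ≤ τ / 2 := by rw [hσ]; exact min_le_left _ _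
  have σ2 : σ ≤ μ / 8 := by rw [hσ]; exact min_le_right _ _
  have NA3 := boxN_sw NA
  have NB3 := boxN_sw NB
  have σ3 : ξ + σ ≤ qr := by
    have := NB3.mar
    linarith only [this, σ1, yτ, hτ0]
  have σ4 : ξ' + σ ≤ qr' := by
    have := NA3.mar
    linarith only [this, σ1, yτ', hτ0]
  have MT : MuT X' X Sl Sm ξ' qr' μ' vj' (cs' Dc).κ ξ qr μ vj (cs Dc).κ dW τ 0 σ :=
    ⟨MS, σ0, by linarith only [σ1], by linarith only [σ2], σ3, σ4⟩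
  obtain ⟨N, n0, m1, m2, m3⟩ := NB.nat_ex hM1 (max M (M / σ))
  have n0a : M ≤ N + 1 := (le_max_left _ _).trans n0
  have n0b : M ≤ (N + 1) * σ := by
    have := (le_max_right M (M / σ)).trans n0
    rwa [div_le_iff₀ σ0] at this
  obtain ⟨k₀, huse⟩ := cgt_use (by omega) hCg N
  have hk0 : (0 : ℝ) < (1 / 2) ^ k₀ := by positivity
  have hk1 : (1 / 2 : ℝ) ^ k₀ ≤ 1 := pow_le_one₀ (by norm_num) (by norm_num)
  have hk2 : (0 : ℝ) < 2 ^ k₀ := by positivity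
  obtain ⟨yp, hyp⟩ : ∃ yp : ℝ, yp = min (min (ν / 8) (ν' / 8))
    (min (min (μ / 2) (μ' / 2)) ((1 / 2) ^ k₀)) := ⟨_, rfl⟩
  have hν0 := NB.ν0
  have hν'0 := NA.ν0
  have hμ'0 := NA.μ0
  have yp0 : 0 < yp := by
    rw [hyp]
    exact lt_min (lt_min (by positivity) (by positivity))
      (lt_min (lt_min (by positivity) (by positivity)) hk0)
  have yp1 : yp ≤ ν / 8 := by rw [hyp]; exact (min_le_left _ _).trans (min_le_left _ _)
  have yp2 : yp ≤ ν' / 8 := by rw [hyp]; exact (min_le_left _ _).trans (min_le_right _ _)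
  have yp3 : yp ≤ μ / 2 := by
    rw [hyp]; exact (min_le_right _ _).trans ((min_le_left _ _).trans (min_le_left _ _))
  have yp4 : yp ≤ μ' / 2 := by
    rw [hyp]; exact (min_le_right _ _).trans ((min_le_left _ _).trans (min_le_right _ _))
  have yp5 : yp ≤ (1 / 2) ^ k₀ := by
    rw [hyp]; exact (min_le_right _ _).trans (min_le_right _ _)
  -- the cell
  obtain ⟨Kc, Nc, Ac, Vc, c1, c2, hC⟩ := hC Dc hDc1 del hdel X' X Sm ξ' qr' μ' vj' (cs' Dc).κ ξ qr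
    μ vj (cs Dc).κ dW τ 0 σ yp yp0 MT
  refine ⟨Kc, Nc, Ac, Vc, c1, c2, fun S₂ hS₂ => ?_⟩
  obtain ⟨Nd, Vd, d1, εd, hεd, hC⟩ := hC S₂ hS₂
  -- the windows
  obtain ⟨W, hW⟩ : ∃ W : ℝ, W = 2 ^ k₀ * M + K₀ := ⟨_, rfl⟩
  obtain ⟨ε₁, hε₁⟩ : ∃ ε₁ : ℝ, ε₁ = (1 / 2) ^ k₀ * M := ⟨_, rfl⟩
  have hW0 : 0 ≤ W := by rw [hW]; positivity
  have hε₁0 : 0 < ε₁ := by rw [hε₁]; positivity
  obtain ⟨Xb, hXb⟩ : ∃ Xb : ℝ, Xb = |(K₀ + 1) * (Sl 3 + 1) + M| + 5 + 2 ^ k₀ * M := ⟨_, rfl⟩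
  obtain ⟨N'', V'', K'', e0, e1, e2, e3', e4, ⟨jm, jm1, jm2⟩, e5⟩ := netl_ex hW0 hε₁0 Nd Vd d1 Xb
  have e2a : (K₀ + 1) * (Sl 3 + 1) + M ≤ K'' := by
    have h3 := le_abs_self ((K₀ + 1) * (Sl 3 + 1) + M)
    have h4 : 0 ≤ 2 ^ k₀ * M := by positivity
    linarith
  have e2b : yp + 4 ≤ K'' := by
    have h3 := abs_nonneg ((K₀ + 1) * (Sl 3 + 1) + M)
    have h4 : 0 ≤ 2 ^ k₀ * M := by positivity
    linarith
  have e2c : 2 ^ k₀ * M < 3 * K'' := by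
    have h3 := abs_nonneg ((K₀ + 1) * (Sl 3 + 1) + M)
    linarith
  obtain ⟨ε, hε⟩ : ∃ ε : ℝ, ε = min εd (min ((1 / 2) ^ k₀ * M) 1) := ⟨_, rfl⟩
  have ε0 : 0 < ε := by rw [hε]; exact lt_min hεd (lt_min (by positivity) one_pos)
  have ε1 : ε ≤ εd := by rw [hε]; exact min_le_left _ _
  have ε2 : ε ≤ (1 / 2) ^ k₀ * M := by
    rw [hε]; exact (min_le_right _ _).trans (min_le_left _ _)
  have ε3 : ε ≤ 1 := by rw [hε]; exact (min_le_right _ _).trans (min_le_right _ _)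
  have hkA : (0 : ℝ) < (1 / 2) ^ kA := by positivity
  obtain ⟨q₁, hq₁⟩ : ∃ q₁ : ℝ, q₁ = min ((1 / 2) ^ k₀ / M) (min ((1 / 2) ^ kA / (K'' + K₀))
    ((1 / 2) ^ kA / (2 ^ k₀ * M))) := ⟨_, rfl⟩
  have hM0 : 0 < M := by linarith
  have q0 : 0 < q₁ := by
    rw [hq₁]
    exact lt_min (by positivity) (lt_min (by positivity) (by positivity))
  refine ⟨K'', N'', V'', e1, e3', ε, q₁, ε0, q0, ?_⟩
  intro P₂ θ₂ Eb e₂ q t hq R
  have hqp := R.q0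
  have q1 : M * q < (1 / 2) ^ k₀ := by
    have h3 : q < (1 / 2) ^ k₀ / M := hq.trans_le (by rw [hq₁]; exact min_le_left _ _)
    rw [lt_div_iff₀ hM0] at h3
    linarith
  have q2 : (K'' + K₀) * q ≤ (1 / 2) ^ kA := by
    have h3 : q < (1 / 2) ^ kA / (K'' + K₀) := hq.trans_le (by
      rw [hq₁]; exact (min_le_right _ _).trans (min_le_left _ _))
    rw [lt_div_iff₀ (by positivity)] at h3
    linarith
  have q3 : 2 ^ k₀ * (M * q) < (1 / 2) ^ kA := by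
    have h3 : q < (1 / 2) ^ kA / (2 ^ k₀ * M) := hq.trans_le (by
      rw [hq₁]; exact (min_le_right _ _).trans (min_le_right _ _))
    rw [lt_div_iff₀ (by positivity)] at h3
    linarith
  have hGm : t - q ∈ G := by
    have h3 := R.memG.2 jm jm1
    rw [jm2] at h3
    have h4 : t + -1 * q = t - q := by ring
    rwa [h4] at h3
  -- the labels
  have hL := hlbr (k₁ := 0) R e0 (fun k hk => abs_le.2 (e3' k hk)) hLbN hChU hAtt q2 W ε₁
    (2 ^ k₀ * (M * q))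
    (by positivity) (by
      have h3 := mul_lt_mul_of_pos_right e2c hqp
      linarith) q3 e5 (2 ^ k₀ * (M * q)) (by
      rw [hW]
      have h3 : (2 ^ k₀ * M + K₀) * q = 2 ^ k₀ * (M * q) + K₀ * q := by ring
      rw [h3])
  have hL' : LbR S c 1 Dc (fun w l => L l w w) G g (2 ^ k₀ * (M * q)) (2 ^ k₀ * (M * q))
      ((1 / 2) ^ k₀ * (M * q)) 3 := by
    have h3 := hL.deg hDc2
    have h4 : ε₁ * q = (1 / 2) ^ k₀ * (M * q) := by rw [hε₁]; ring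
    have h5 : 4 - 1 = 3 := by norm_num
    rw [h4, h5] at h3
    exact h3
  -- the numbers of the record theorem
  have hkM' : (1 / 2 : ℝ) ^ k₀ ≤ (1 / 2) ^ k₀ * (K₀ + X' + 1) :=
    le_mul_of_one_le_right hk0.le (by linarith)
  have hkM : (1 / 2 : ℝ) ^ k₀ ≤ (1 / 2) ^ k₀ * (K₀ + X + 1) :=
    le_mul_of_one_le_right hk0.le (by linarith)
  have NA' := NA3.muC (v := 2) (K₀ := K₀) (C := N' + 1) (dW := dW) (yp := yp)
    (e := (1 / 2) ^ k₀) (by positivity) (by rw [← hM']; exact n1) (by rw [← hM']; exact n2)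
    (by rw [← hM']; exact n3) y3 y4 y5 yp0.le yp2 (by linarith) (by linarith)
  have NB' := NB3.muC (v := 2) (K₀ := K₀) (C := N + 1) (dW := dW) (yp := yp)
    (e := (1 / 2) ^ k₀) (by positivity) (by rw [← hM]; exact m1) (by rw [← hM]; exact m2)
    (by rw [← hM]; exact m3) y3 y6 y7 yp0.le yp1 (by linarith) (by linarith)
  rw [← hM'] at NA'
  rw [← hM] at NB'
  have hCG := huse (Sl := Sl) hd hΦ hS1 NA' NB' (by rw [hM, hM']; linarith) (by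
      have h3 : (N + 1 : ℝ) ≤ (N + 1) * M' := le_mul_of_one_le_right (by positivity) hM'1
      linarith) yq MS.qq y1 MS.xi MS.mm
      (fun l _ hl => by
        have h3 := yC (sw 1 l) (by
          have := sw3_lt (show l < 3 by omega)
          omega)
        beta_reduce at h3
        rwa [sw3_inv (by omega)] at h3) n0b
      (by linarith only [σ2, hμ0]) σ3 σ4 hK₀.le R ε2 ε3 e2a e2b q1 hGm hL'
  have R' := R.mono (K₁ := Kc) (ε₁ := εd) (N₁ := Nc) (A₁ := Ac) (V₁ := Vc) (N₁' := Nd)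
    (V₁' := Vd) e1 ε1 (fun k hk => ⟨k, hk, rfl, rfl⟩) e4
  have R'' := R'.recQ (i := 3) (by omega) (by omega) hκi hκ
  exact hC S P (P₂ 3) θ (θ₂ 3) c (L 3) L T (Eb 3) (e₂ 3) q t R''
    (fun l => L l (t - q) (t - q) - yp * q) (fun l => L l (t - q) (t - q)) _ _
    (fun l _ => ⟨le_rfl, le_rfl⟩) hCG

/-- **The cell `[one, thin, sta]`** with the thin slope above two, static slope two, critical target,
at a window with the closed gradient. -/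
theorem celQI_ts {Sl : ℕ → ℝ} (k0 : Sl 0 = 1) (k1 : 2 < Sl 1) (k2 : Sl 2 = 2)
    (k3 : Sl 3 = 1 + Sl 1) {Φ : (ℕ → ℝ) → Prop} (hΦ : Φ (fun l => Sl (sw 1 l)))
    {C₁ : (ℕ → ℝ) → ℝ} (hC₁ : 0 ≤ C₁ (fun l => Sl (sw 1 l))) {h : ℝ} {cs cs' : ℕ → Cst}
    (hok : ∀ K, (cs K).Ok) (hok' : ∀ K, (cs' K).Ok) :
    CelQI 4 3 h Sl (Pool.PKG.kgL [Kd.one, Kd.thin, Kd.sta]) (QCgt Φ C₁ h cs cs') := by
  have hκ : ∀ l < 3, Pool.PKG.kgL [Kd.one, Kd.thin, Kd.sta] l =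
      ofKd ((fun l => [Kd.one, Kd.thin, Kd.sta].getD l .one) l) := fun l hl => by
    rw [Pool.PKG.kgL_lt (κ := [Kd.one, Kd.thin, Kd.sta]) hl]
    beta_reduce
    rw [List.getD_eq_getElem _ _ hl]
  exact celQI_cgt (κ' := fun l => [Kd.one, Kd.thin, Kd.sta].getD l .one)
    (Pool.PKG.kgL_len [Kd.one, Kd.thin, Kd.sta]) hκ (cellT_ts0 rfl rfl rfl k0 k1.le k2
      (by linarith) (by linarith))
    (fun l hl => by
      obtain rfl | rfl | rfl : l = 0 ∨ l = 1 ∨ l = 2 := by omega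
      · rw [k0]
      · linarith
      · rw [k2]; norm_num) (fun l hl => by
      obtain rfl | rfl | rfl : l = 0 ∨ l = 1 ∨ l = 2 := by omega
      · rw [k0, k3]; linarith
      · rw [k3]; linarith
      · rw [k2, k3]; linarith) (fun l l0 l1 => by
      obtain rfl | rfl | rfl : l = 1 ∨ l = 2 ∨ l = 3 := by omega
      · linarith
      · rw [k2]; norm_num
      · rw [k3]; linarith) hΦ hC₁ hok hok'

/-- **The closed gradient of the place two at almost every window** where the swapped list exists: the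
slopes of the swapped list are `2`, `s > 2`, `1 + s`. -/
def CgTS : Prop := ∀ h : ℝ, 0 < h → h ≤ 1 →
  ∃ (C₁ : (ℕ → ℝ) → ℝ) (cs cs' : ℕ → Cst),
    (∀ Sl, Pool.ASM.PhST (fun x => 2 < x) Sl → 0 ≤ C₁ Sl) ∧
    (∀ K, (cs K).Ok) ∧ (∀ K, (cs' K).Ok) ∧
    ((∀ k, 1 ≤ k → k < 4 → FZX k) →
      AeRs 4 1 (CgtQ (Pool.ASM.PhST fun x => 2 < x) C₁ h (1 / 2) cs cs' : PropG 4 (ℕ × ℕ)))

/-- **The cell `[one, thin, sta]`, thin slope above two, for all classes**, at the windows where the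
swapped list exists, from the closed gradient. -/
theorem lCellR_ts (H : CgTS) : Pool.SWP.LCellR 4 1
    (fun Sl => 2 < Sl 1 ∧ Sl 2 = 2 ∧ Sl 3 = 1 + Sl 1) [Kd.one, Kd.thin, Kd.sta] := by
  refine Pool.SWP.lCellR_gih (by norm_num) _ fun h h0 h1 => ?_
  obtain ⟨C₁, cs, cs', hC₁, hok, hok', H⟩ := H h h0 h1
  refine ⟨((Unit ⊕ Unit) ⊕ Unit) ⊕ (ℕ × ℕ), inferInstance,
    QCgt (Pool.ASM.PhST fun x => 2 < x) C₁ h cs cs', fun hZ => aeRs_qcgt (H hZ),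
    fun Sl hφ hk _ _ => ?_⟩
  obtain ⟨k1, k2, k3⟩ := hφ
  have k0 : Sl 0 = 1 := (hk 0 (by norm_num)).1 rfl
  have e3 : sw 1 3 = 3 := sw_gt (by norm_num)
  have e2 : sw 1 2 = 1 := sw_k1 1
  have e1 : sw 1 1 = 2 := sw_k 1
  have hΦ : Pool.ASM.PhST (fun x => 2 < x) (fun l => Sl (sw 1 l)) := by
    refine ⟨?_, ?_, ?_⟩
    · show Sl (sw 1 1) = 2
      rw [e1, k2]
    · show Sl (sw 1 3) = 1 + Sl (sw 1 2)
      rw [e3, e2, k3]
    · show 2 < Sl (sw 1 2)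
      rw [e2]
      exact k1
  exact celQI_ts k0 k1 k2 k3 hΦ (hC₁ _ hΦ) hok hok'

end Pool.TSC88
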