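import Pool.Agent.H23.D2.Cts
import Pool.Agent.H88.TSC.Lip

/-!
# The cell `[one, thin, sta]` with a steep thin place, from the closed gradient

`CellT`: the class theorem of a cell with the closed gradient `CGt` of every large degree, at the
window `t - q`. `cellT_ts0`: the class theorem of the target over one coordinate of slope one, a thin
coordinate of slope at least two and a static coordinate of slope two, from the closed gradient `CGt`
in the direction of the static place.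
-/

set_option autoImplicit false

namespace Pool.TSC88

open Finset Real MvPolynomial
open Pool.Agent.H49.Ent Pool.Agent.H32.Dense Pool.STK Pool.KA Pool.KSAT Pool.K2S Pool.PB Pool.S6C
open Pool.GEN Pool.CHT Pool.CHX Pool.ISO Pool.D2R Pool.D2Z Pool.D2F Pool.AFT Pool.PKG Pool.TN
open Pool.LBT (ThrOf)
open Pool.TSW66 (CGt)
open Pool.TNW (ts_crit0 num_ts0 muA muA_deg muA_rt jA_last)
open Pool.PB.Trl (rt)

/-- **The class theorem of a cell from the closed gradient** `CGt` in the direction of the place two;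
the place one is a steeper spectator; target: the place three. -/
def CellT (n : ℕ) (Sl : ℕ → ℝ) (κ : ℕ → Kd) : Prop :=
  ∀ S₀ : ℕ, 1 ≤ S₀ → ∃ D₀ : ℕ, 1 ≤ D₀ ∧ ∀ Dc : ℕ, D₀ ≤ Dc → ∀ del : ℝ, 0 < del →
    ∀ (X' X : ℕ) (Sm ξ' qr' μ' vj' κ₁ ξ qr μ vj κ₂ dW τ E σ yp : ℝ), 0 < yp →
    MuT X' X Sl Sm ξ' qr' μ' vj' κ₁ ξ qr μ vj κ₂ dW τ E σ →
    ∃ (K : ℝ) (N : ℕ) (A V : ℕ → ℝ), 1 ≤ K ∧ (∀ k < N, -K ≤ V k ∧ V k ≤ A k ∧ A k ≤ K) ∧
    ∀ S₂ : ℕ, S₀ ≤ S₂ → ∃ (N' : ℕ) (V' : ℕ → ℝ), (∀ k < N', -K ≤ V' k ∧ V' k ≤ K) ∧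
      ∃ ε : ℝ, 0 < ε ∧ ∀ (S : PCl n)
      (P P₂ : List (Fin n) × Fin n → ℝ → ℝ → ℝ) (θ θ₂ : ℝ) (c : ℕ → Fin n) (Pt : ℝ → ℝ → ℝ)
      (L T : ℕ → ℝ → ℝ → ℝ) (Eb e₂ q t : ℝ),
      RecQ S P P₂ θ θ₂ c 3 Pt L T Sl κ S₀ N A V S₂ N' V' Eb e₂ K ε q t →
      ∀ (pl sl : ℕ → ℝ) (ι : ℝ) (k₁ : ℕ),
      (∀ l ≤ 3, pl l ≤ L l (t - q) (t - q) - yp * q ∧ L l (t - q) (t - q) ≤ sl l) →
      CGt S c Dc (t - q) (dW * q) (t + vj' * q) (t + X' * q) (t + vj * q) (t + X * q) pl sl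
        (qr' * q) (ξ' * q) (qr * q) (ξ * q) (μ * q) (σ * q) κ₂ ι k₁ (1 / 2) →
      L 3 (t + q) (t + q) ≤ L 3 (t + q) t + del * q

/-- **The class theorem of the cell** `[one, thin, sta]`, static slope two, thin slope at least two,
from the closed gradient in the direction of the static place. -/
theorem cellT_ts0 {n : ℕ} {Sl : ℕ → ℝ} {κ : ℕ → Kd} (k0 : κ 0 = .one) (k1 : κ 1 = .thin)
    (k2 : κ 2 = .sta) (h0 : Sl 0 = 1) (h12 : 2 ≤ Sl 1) (h2 : Sl 2 = 2) (h3 : 2 < Sl 3)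
    (h13 : Sl 1 ≤ Sl 3) : CellT n Sl κ := by
  intro S₀ hS₀
  obtain ⟨D₀, hD₀, hcev⟩ := cevmt_lip n 1 S₀ le_rfl (by norm_num) hS₀
  refine ⟨D₀, hD₀, fun Dc hDc del hdel X'' XX Sm ξ' qr' μ' vj' κ₁ ξ qr μ vj κ₂ dW τ E' σ yp hyp
    hMu => ?_⟩
  have h1 : 1 < Sl 1 := by linarith only [h12]
  have hS21 : Sl 2 ≤ Sl 1 := by linarith only [h12, h2]
  have hXX1 : 1 ≤ XX := le_trans (by norm_num) hMu.S.B.X2
  obtain ⟨s, hs⟩ : ∃ s, s = Sl 1 := ⟨_, rfl⟩
  obtain ⟨b, hb⟩ : ∃ b, b = Sl 3 := ⟨_, rfl⟩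
  rw [← hs] at h1
  rw [← hb] at h3
  have hXR : (1 : ℝ) ≤ XX := by exact_mod_cast hXX1
  have hs1 : 0 < s - 1 := by linarith only [h1]
  have pbs : 0 ≤ (b - 2) * s := mul_nonneg (by linarith only [h3]) (by linarith only [h1])
  have pb1 : 0 ≤ (b - 1) * (1 + s) := mul_nonneg (by linarith only [h3]) (by linarith only [h1])
  obtain ⟨A', hA'⟩ : ∃ A' : ℝ, A' = (b - 1) + (b - 2) * s + XX + 4 := ⟨_, rfl⟩
  have hA6 : 6 ≤ A' := by linarith only [hA', h3, pbs, hXR]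
  have hdiv : 0 ≤ A' / (s - 1) := div_nonneg (by linarith only [hA6]) hs1.le
  have hdiv2 : (s - 1) * (A' / (s - 1)) = A' := by field_simp
  obtain ⟨v0, hv0⟩ : ∃ v0 : ℝ, v0 = -(A' + s + A' / (s - 1)) := ⟨_, rfl⟩
  have v0a : v0 ≤ -A' := by linarith only [hv0, hdiv, h1]
  have v0b : v0 ≤ -s := by linarith only [hv0, hdiv, hA6]
  have v0c : A' ≤ (s - 1) * (-v0) := by
    have h5 : (s - 1) * (-v0) = (s - 1) * (A' + s) + (s - 1) * (A' / (s - 1)) := by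
      rw [hv0]
      ring
    have h6 : 0 ≤ (s - 1) * (A' + s) := mul_nonneg hs1.le (by linarith only [hA6, h1])
    linarith only [h5, h6, hdiv2]
  have v0d : A' + s ≤ -v0 := by linarith only [hv0, hdiv]
  obtain ⟨K, hK⟩ : ∃ K : ℝ, K = -v0 + 2 * ((b - 1) * (1 + s)) + 6 := ⟨_, rfl⟩
  have KA : A' + s + 6 ≤ K := by linarith only [hK, pb1, v0d]
  have Kv : -v0 + 6 ≤ K := by linarith only [hK, pb1]
  obtain ⟨v, hv⟩ : ∃ v : ℕ → ℝ, v = vcr v0 (-s) := ⟨_, rfl⟩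
  have e0 : v 0 = v0 := by rw [hv]; rfl
  have e1 : v 1 = -s := by rw [hv]; rfl
  have e2 : v 2 = 0 := by rw [hv]; rfl
  have e3 : v 3 = 1 := by rw [hv]; rfl
  have hvb : ∀ k ≤ 3, v0 ≤ v k ∧ v k + 1 + 4 ≤ A' := fun k hk => by
    have : k = 0 ∨ k = 1 ∨ k = 2 ∨ k = 3 := by omega
    rcases this with rfl | rfl | rfl | rfl
    · rw [e0]
      exact ⟨le_rfl, by linarith only [v0a, hA6]⟩
    · rw [e1]
      exact ⟨v0b, by linarith only [h1, hA6]⟩
    · rw [e2]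
      exact ⟨by linarith only [v0a, hA6], by linarith only [hA6]⟩
    · rw [e3]
      exact ⟨by linarith only [v0a, hA6], by linarith only [hA6]⟩
  obtain ⟨Al, hAl⟩ : ∃ Al : ℕ → ℝ, Al = fun k => if k = 4 then 1 else A' := ⟨_, rfl⟩
  obtain ⟨Vl, hVl⟩ : ∃ Vl : ℕ → ℝ, Vl = fun k => if k = 4 then 0 else v k := ⟨_, rfl⟩
  have Al4 : Al 4 = 1 := by rw [hAl]; simp
  have Vl4 : Vl 4 = 0 := by rw [hVl]; simp
  have Alk : ∀ k ≤ 3, Al k = A' := fun k hk => by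
    rw [hAl]
    simp only [show k ≠ 4 by omega, if_false]
  have Vlk : ∀ k ≤ 3, Vl k = v k := fun k hk => by
    rw [hVl]
    simp only [show k ≠ 4 by omega, if_false]
  refine ⟨K, 5, Al, Vl, by linarith only [KA, hA6, h1], fun k hk => ?_, fun S₂ hS₂ => ?_⟩
  · rcases Nat.lt_or_ge k 4 with h5 | h5
    · rw [Alk k (by omega), Vlk k (by omega)]
      have h6 := hvb k (by omega)
      exact ⟨by linarith only [h6.1, Kv], by linarith only [h6.2], by linarith only [KA, h1]⟩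
    · have h6 : k = 4 := by omega
      subst h6
      rw [Al4, Vl4]
      exact ⟨by linarith only [KA, hA6, h1], by norm_num, by linarith only [KA, hA6, h1]⟩
  obtain ⟨D, D₁, hDD, hDD₁, hcev⟩ := hcev Dc hDc S₂ hS₂
  obtain ⟨C, hC, hend⟩ := ts_crit0 n D (D + (2 * Dc + 2)) (hD₀.trans hDD)
  have hCR : (1 : ℝ) ≤ C := by exact_mod_cast hC
  have hC0 : (0 : ℝ) < C := by linarith only [hCR]
  have hCC : (1 : ℝ) ≤ C ^ 2 := one_le_pow₀ hCR
  have hCC2 : (C : ℝ) ≤ C ^ 2 := by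
    have := mul_le_mul_of_nonneg_left hCR hC0.le
    linarith only [this, sq (C : ℝ)]
  obtain ⟨m₀, hm₀⟩ : ∃ m₀ : ℝ, m₀ = min 1 (min del (s - 1)) := ⟨_, rfl⟩
  have m00 : 0 < m₀ := by rw [hm₀]; exact lt_min one_pos (lt_min hdel hs1)
  have m01 : m₀ ≤ 1 := by rw [hm₀]; exact min_le_left _ _
  have m02 : m₀ ≤ del := by rw [hm₀]; exact (min_le_right _ _).trans (min_le_left _ _)
  have m03 : m₀ ≤ s - 1 := by rw [hm₀]; exact (min_le_right _ _).trans (min_le_right _ _)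
  obtain ⟨y, hy⟩ : ∃ y : ℝ, y = m₀ / (40000 * C ^ 2) := ⟨_, rfl⟩
  have hy0 : 0 < y := by rw [hy]; positivity
  have hyC : 40000 * (C ^ 2 * y) = m₀ := by rw [hy]; field_simp
  have hyy : y ≤ C ^ 2 * y := le_mul_of_one_le_left hy0.le hCC
  have hCy : C * y ≤ C ^ 2 * y := mul_le_mul_of_nonneg_right hCC2 hy0.le
  have hy1 : y ≤ 1 / 40000 := by linarith only [hyC, hyy, m01]
  obtain ⟨n₀, p, s', ε₀, y', hn₀, hp, hs', hns, hε₀, hy'0, hy'y, hcev⟩ := hcev D₁ le_rfl Sl y 1 hy0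
    (by linarith only [hy1]) one_pos
    (fun l hl1 hl2 => by
      have : l = 1 ∨ l = 2 := by omega
      rcases this with rfl | rfl
      · rw [← hs]; exact h1
      · rw [h2]; norm_num)
    (by
      rw [h0, ← hs, h2]
      exact ⟨h1, by norm_num⟩) hS21 h13 X'' XX Sm ξ' qr' μ' vj' κ₁ ξ qr μ vj κ₂ dW τ E' σ yp hyp
    hMu
  have hpR : (0 : ℝ) < p := by
    have : 0 < p := by omega
    exact_mod_cast this
  obtain ⟨V', hV'⟩ : ∃ V' : ℕ → ℝ, V' = fun j => if j < 4 * n₀ then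
      v (j / n₀) + ((j % n₀ : ℕ) + 1) * s' else -1 + ((j - 4 * n₀ : ℕ) : ℝ) / p := ⟨_, rfl⟩
  obtain ⟨u, hu⟩ : ∃ u : ℕ → ℝ, u = fun k => if k ≤ 3 then v k else
      -1 + ((k - 4 : ℕ) : ℝ) / p := ⟨_, rfl⟩
  have huk : ∀ k ≤ 3, u k = v k := fun k hk => by
    rw [hu]
    simp only [hk, if_true]
  have hux : ∀ k : ℕ, u (3 + 1 + k) = -1 + k / p := fun k => by
    rw [hu]
    simp only [show ¬ (3 + 1 + k ≤ 3) by omega, if_false, show 3 + 1 + k - 4 = k by omega]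
  have q0 : u 0 = v0 := by rw [huk 0 (by norm_num), e0]
  have q1 : u 1 = -s := by rw [huk 1 (by norm_num), e1]
  have q2 : u 2 = 0 := by rw [huk 2 (by norm_num), e2]
  have q3 : u 3 = 1 := by rw [huk 3 (by norm_num), e3]
  have hub : ∀ k ≤ 3, v0 ≤ u k ∧ u k + 1 + 4 ≤ A' := fun k hk => by
    rw [huk k hk]
    exact hvb k hk
  refine ⟨4 * n₀ + ((XX + 1) * p + 1), V', fun j hj => ?_, min ε₀ (y' / 4),
    lt_min hε₀ (by positivity), ?_⟩
  · rw [hV']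
    beta_reduce
    split_ifs with h4
    · have h5 : j / n₀ ≤ 3 := by
        have : j / n₀ < 4 := Nat.div_lt_of_lt_mul (by omega)
        omega
      have h6 : ((j % n₀ : ℕ) : ℝ) + 1 ≤ n₀ + 1 := by
        have : j % n₀ < n₀ := Nat.mod_lt _ (by omega)
        have : ((j % n₀ : ℕ) : ℝ) ≤ n₀ := by exact_mod_cast this.le
        linarith only [this]
      have h7 := mul_le_mul_of_nonneg_right h6 hs'.le
      have h8 := hvb _ h5
      have h9 : 0 ≤ ((j % n₀ : ℕ) + 1 : ℝ) * s' := by positivity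
      exact ⟨by linarith only [h8.1, h9, Kv], by linarith only [h8.2, h7, hns, KA, h1]⟩
    · have h5 : j - 4 * n₀ ≤ (XX + 1) * p := by omega
      have h6 : ((j - 4 * n₀ : ℕ) : ℝ) ≤ (XX + 1) * p := by exact_mod_cast h5
      have h7 : ((j - 4 * n₀ : ℕ) : ℝ) / p ≤ XX + 1 := by
        rw [div_le_iff₀ hpR]
        exact h6
      have h8 : 0 ≤ ((j - 4 * n₀ : ℕ) : ℝ) / p := by positivity
      exact ⟨by linarith only [h8, KA, hA6, h1], by linarith only [h7, KA, hA', h1, h3, pbs]⟩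
  intro S P P₂ θ θ₂ c Pt L T Eb e₂' q t R pl sl ι k₁ hpl hCG
  by_contra hcon
  rw [not_le] at hcon
  have hq := R.q0
  obtain ⟨Eb', e', RL⟩ := R.lst 1 le_rfl (by norm_num)
  have hεe : min ε₀ (y' / 4) ≤ ε₀ := min_le_left _ _
  have hεy : min ε₀ (y' / 4) ≤ y' / 4 := min_le_right _ _
  have hε0 : 0 < min ε₀ (y' / 4) := lt_min hε₀ (by positivity)
  have hyq : 0 < y' * q := mul_pos hy'0 hq
  have hy'1 : y' ≤ 1 / 40000 := hy'y.trans hy1
  have y'3 : y' ≤ 1 / 1000 := by linarith only [hy'1]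
  have hK3 : 3 ≤ K := by linarith only [KA, hA6, h1]
  obtain ⟨a, w', ra1, ra2, ra3, ra4, ra5, ra6, ra7, ra8, ra9, rb, rn, rt3⟩ :=
    RecQ.ra R hy'0 y'3 hεy hK3 (j := 4) (by norm_num) Al4 Vl4
  obtain ⟨a₂, w₂, rl1, rl2, rl3, rl4, rl5, rl6, rl7, rl8, rl9, rlf⟩ :=
    RecQ.rl R (l := 1) (by norm_num) k1 RL hy'0 y'3 hεy hK3 (j := 4) (by norm_num) Al4 Vl4
  have ht0 := R.t0
  have ht1 := R.t1
  have hKq1 : 3 * q ≤ K * q := mul_le_mul_of_nonneg_right hK3 hq.le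
  have bx1 : |t + q - t| ≤ K * q := by
    rw [abs_le]
    exact ⟨by linarith only [hKq1, hq], by linarith only [hKq1, hq]⟩
  have L13 : L 3 (t + q) (t + q) ≤ L 3 t t + b * q + y' / 4 * q := by
    have h4 := abs_le.1 (R.dL 3 le_rfl (t + q) bx1)
    have h5 := mul_le_mul_of_nonneg_right hεy hq.le
    rw [add_sub_cancel_left, ← hb] at h4
    linarith only [h4.2, h5]
  have hbet3 : bet P₂ c 3 a w' + y' * q ≤ 1 := by
    have h4 := R.room 3 le_rfl (t + q) bx1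
    have h5 := mul_le_mul_of_nonneg_right y'3 hq.le
    have h6 : 0 < del * q := mul_pos hdel hq
    linarith only [h4, h5, h6, rt3, hcon, hKq1, hq, R.Eb0]
  -- the event
  obtain ⟨K₁, hK₁, hcev⟩ := hcev R RL hε0.le hεe (by linarith only [hK3]) A' 3 2 3 u
    (fun l => l = 2) (by linarith only [KA, h1]) (by norm_num) le_rfl q2 q3
    (fun k hk => ⟨by linarith only [(hub k hk).1, Kv], by linarith only [(hub k hk).2]⟩)
    (by linarith only [hA', h3, pbs])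
    (fun k hk => ⟨k, by omega, Alk k hk, by rw [huk k hk]; exact Vlk k hk⟩)
    (fun k _ => hux k)
    (fun k hk => ⟨4 * n₀ + k, by omega, by
      rw [hV']
      simp only [show ¬ (4 * n₀ + k < 4 * n₀) by omega, if_false,
        show 4 * n₀ + k - 4 * n₀ = k by omega]⟩)
    (fun k hk j hj1 hj2 => by
      have h4 : k * n₀ ≤ 3 * n₀ := Nat.mul_le_mul_right _ hk
      have h4' : k * n₀ + (j - 1) < 4 * n₀ := by omega
      refine ⟨k * n₀ + (j - 1), by omega, ?_⟩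
      have h5 : (k * n₀ + (j - 1)) / n₀ = k := by
        rw [mul_comm, Nat.mul_add_div (by omega), Nat.div_eq_of_lt (by omega), add_zero]
      have h6 : (k * n₀ + (j - 1)) % n₀ = j - 1 := by
        rw [mul_comm, Nat.mul_add_mod, Nat.mod_eq_of_lt (by omega)]
      have h7 : ((j - 1 : ℕ) : ℝ) + 1 = j := by
        have : ((j - 1 + 1 : ℕ) : ℝ) = j := by rw [Nat.sub_add_cancel hj1]
        push_cast at this
        exact this
      rw [hV', huk k hk]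
      simp only [h4', if_true]
      rw [h5, h6, h7]) (fun l hl hsc => by
      have : l = 0 ∨ l = 1 := by omega
      rcases this with rfl | rfl
      · exact Or.inl k0
      · exact Or.inr k1) pl sl ι k₁ hpl hCG
  have hV1 := hcev 1 one_pos
  have hV2 := hend R.thr₂ R.thr R.tmh c R.inj a e₂' (y' * q) (ra5.trans ra6) ra7 ra8 hyq
    (rb 0 (by norm_num)) (rb 2 (by norm_num)) a w' (t + K * q) e₂' (y' * q) ra5 ra6 ra7.le ht1
    ra9 hyq hbet3 a₂ w₂ e' (y' * q) rl5 rl6 rl7.le rl8 hyq rl9 (y' * q / 2) (1 / K₁)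
    (by positivity) (by positivity)
  have hpos : Bas S (fun _ F A => 0 < Pe F.p A) := ⟨1, one_pos, 0, fun J _ F A hA =>
    R.tmh.1 1 J F A hA⟩
  obtain ⟨J₁, hJ₁⟩ := exists_nat_ge (((C : ℝ) + 2) / (y' * q))
  refine Pool.LBT.bas_false R.ne (Φ := fun _ _ _ => True) ⟨1, one_pos, 0, fun _ _ _ _ _ =>
    trivial⟩ (Bas.mono J₁ ((hV1.and hV2).and hpos) ?_)
  rintro J hJ F A₀ ⟨⟨hA1, hA2⟩, hA0⟩ -
  have hJR : (J₁ : ℝ) ≤ J := by exact_mod_cast hJ
  have hyU : (C : ℝ) + 2 ≤ y' * (q * J) := by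
    have h4 := hJ₁.trans hJR
    rw [div_le_iff₀ hyq] at h4
    linarith only [h4]
  have hJ0 : (0 : ℝ) ≤ J := Nat.cast_nonneg J
  obtain ⟨M, z, B, e, h, pp, g, gc, gT, g₀, G, H, Th, TH, Gt, Ht, mu, eL, hBA, hBP, E, hzz, hmud,
    hmu, hlip, hnum⟩ := hA1
  have hap := apN_of R hy'0 hεy (by linarith only [KA, h1]) (N₁ := 3) (v := u) (fun k hk =>
      ⟨by linarith only [(hub k hk).1, Kv], by linarith only [(hub k hk).2]⟩)
      (fun k hk => ⟨k, by omega, Alk k hk, by rw [huk k hk]; exact Vlk k hk⟩)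
      (Sc := fun l => l = 2) (fun l hl hl1 => by
        have : l = 2 := hl1
        rw [this]
        exact k2) (by linarith only [hyU, hCR]) E hnum
  have hzN := hzz.1
  have hz3 := hzz.2 2 (by norm_num) 3 le_rfl (by
    rw [q2, q3]
    have : 1 / (p : ℝ) ≤ 1 := by
      rw [div_le_one hpR]
      exact_mod_cast hp
    linarith only [this])
  obtain ⟨U, hU⟩ : ∃ U : ℝ, U = q * J := ⟨_, rfl⟩
  rw [← hU] at hyU
  have hU0 : 0 ≤ U := by rw [hU]; positivity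
  obtain ⟨w, hw⟩ : ∃ w : ℕ → ℕ, w = fun k => ⌊(t + u k * q) * J⌋₊ := ⟨_, rfl⟩
  obtain ⟨A, hA⟩ : ∃ A : ℕ, A = ⌊(t + A' * q) * J⌋₊ := ⟨_, rfl⟩
  obtain ⟨cl, hcl⟩ : ∃ cl : ℕ, cl = ⌊y' * q * J⌋₊ := ⟨_, rfl⟩
  obtain ⟨Y, hY⟩ : ∃ Y : ℕ, Y = ⌊y * q * J⌋₊ := ⟨_, rfl⟩
  have hwk : ∀ k, ⌊(t + u k * q) * J⌋₊ = w k := fun k => by rw [hw]
  rw [← hcl, ← hA, ← hw] at E
  rw [← hcl, ← hA, ← hw, ← hU] at hap
  rw [hwk, hwk] at hz3
  rw [hwk, ← hY] at hmu
  have c1 := hap.cl1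
  have c2 := hap.cl2
  have hyUs : y' * U ≤ y * U := mul_le_mul_of_nonneg_right hy'y hU0
  have hYR : (Y : ℝ) ≤ y * U := by
    rw [hY]
    have h4 : y * q * J = y * U := by rw [hU]; ring
    rw [h4]
    exact Nat.floor_le (by positivity)
  have hCyU : 40000 * (C ^ 2 * (y * U)) = m₀ * U := by
    rw [← hyC]
    ring
  have hmU1 : m₀ * U ≤ U := mul_le_of_le_one_left hU0 m01
  have hmU2 : m₀ * U ≤ del * U := mul_le_mul_of_nonneg_right m02 hU0
  have hmU3 : m₀ * U ≤ (s - 1) * U := mul_le_mul_of_nonneg_right m03 hU0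
  have yU0 : 0 ≤ y * U := mul_nonneg hy0.le hU0
  have CyU : C * (y * U) ≤ C ^ 2 * (y * U) := mul_le_mul_of_nonneg_right hCC2 yU0
  have yUC : y * U ≤ C ^ 2 * (y * U) := le_mul_of_one_le_left yU0 hCC
  have yUC1 : y * U ≤ C * (y * U) := le_mul_of_one_le_left yU0 hCR
  obtain ⟨X, hX⟩ : ∃ X, X = 50 * cl := ⟨_, rfl⟩
  obtain ⟨Q, hQ⟩ : ∃ Q, Q = C * (cl + X + 1) := ⟨_, rfl⟩
  obtain ⟨Q₃, hQ₃⟩ : ∃ Q₃, Q₃ = C * (cl + X + Y + 1) := ⟨_, rfl⟩
  obtain ⟨X', hX'⟩ : ∃ X', X' = 2 * Q₃ + Q + 100 * (cl + 1) := ⟨_, rfl⟩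
  obtain ⟨Q', hQ'⟩ : ∃ Q', Q' = C * (cl + X' + 1) := ⟨_, rfl⟩
  have XR : (X : ℝ) = 50 * cl := by rw [hX]; push_cast; ring
  have QR : (Q : ℝ) ≤ 52 * (C * (y * U)) := by
    have h5 : (Q : ℝ) = C * (cl + X + 1) := by rw [hQ]; push_cast; ring
    rw [h5]
    have h6 : (cl : ℝ) + X + 1 ≤ 52 * (y * U) := by linarith only [XR, c1, hyUs, hyU, hCR]
    have h7 := mul_le_mul_of_nonneg_left h6 hC0.le
    linarith only [h7]
  have Q3R : (Q₃ : ℝ) ≤ 53 * (C * (y * U)) := by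
    have h5 : (Q₃ : ℝ) = C * (cl + X + Y + 1) := by rw [hQ₃]; push_cast; ring
    rw [h5]
    have h6 : (cl : ℝ) + X + Y + 1 ≤ 53 * (y * U) := by
      linarith only [XR, c1, hyUs, hyU, hCR, hYR]
    have h7 := mul_le_mul_of_nonneg_left h6 hC0.le
    linarith only [h7]
  have X'e : (X' : ℝ) = 2 * Q₃ + Q + 100 * (cl + 1) := by rw [hX']; push_cast; ring
  have X'R : (X' : ℝ) ≤ 358 * (C * (y * U)) := by
    linarith only [X'e, QR, Q3R, c1, hyUs, hyU, hCR, yUC1]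
  have Q'R : (Q' : ℝ) ≤ 360 * (C ^ 2 * (y * U)) := by
    have h5 : (Q' : ℝ) = C * (cl + X' + 1) := by rw [hQ']; push_cast; ring
    rw [h5]
    have h6 : (cl : ℝ) + X' + 1 ≤ 358 * (C * (y * U)) + 2 * (y * U) := by
      linarith only [X'R, c1, hyUs, hyU, hCR]
    have h7 := mul_le_mul_of_nonneg_left h6 hC0.le
    have h8 : C * (358 * (C * (y * U)) + 2 * (y * U)) = 358 * (C ^ 2 * (y * U)) +
        2 * (C * (y * U)) := by ring
    linarith only [h7, h8, CyU]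
  have hQXn : Q ≤ X' := by omega
  have hXXn : X ≤ X' := by
    have h5 : X ≤ Q := by
      rw [hQ]
      calc X ≤ 1 * (cl + X + 1) := by omega
        _ ≤ _ := Nat.mul_le_mul_right _ hC
    omega
  have W2 := hap.w1 2 (by norm_num)
  have W3 := hap.w1 3 le_rfl
  rw [q2] at W2
  rw [q3] at W3
  have hwe3 : w 3 ≤ ⌊(a : ℝ) * J⌋₊ := by
    rw [hw]
    exact Nat.floor_le_floor (mul_le_mul_of_nonneg_right (by rw [q3, one_mul]; exact ra1.le) hJ0)
  have hwe2 : w 2 ≤ ⌊(w' : ℝ) * J⌋₊ := by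
    rw [hw]
    exact Nat.floor_le_floor (mul_le_mul_of_nonneg_right
      (by rw [q2, zero_mul, add_zero]; exact ra3.le) hJ0)
  have hwl3 : w 3 ≤ ⌊(a₂ : ℝ) * J⌋₊ := by
    rw [hw]
    exact Nat.floor_le_floor (mul_le_mul_of_nonneg_right (by rw [q3, one_mul]; exact rl1.le) hJ0)
  have hwl2 : w 2 ≤ ⌊(w₂ : ℝ) * J⌋₊ := by
    rw [hw]
    exact Nat.floor_le_floor (mul_le_mul_of_nonneg_right
      (by rw [q2, zero_mul, add_zero]; exact rl3.le) hJ0)
  have heb : Eb * J + 3 * K * U - 1 ≤ (⌊e₂' * J⌋₊ : ℝ) := by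
    have h5 := Nat.lt_floor_add_one (e₂' * J)
    have h6 := mul_le_mul_of_nonneg_right R.Ebe.le hJ0
    have h9 : (Eb + 3 * K * q) * J = Eb * J + 3 * K * U := by rw [hU]; ring
    rw [h9] at h6
    linarith only [h5, h6]
  have hbt0 : (⌊(bet P₂ c 0 a a + y' * q) * J⌋₊ : ℝ) ≤ L 0 t t * J + U + 5 * (y' * U) := by
    have h5 := rn 0 (by norm_num) J
    rw [← hU, h0, one_mul] at h5
    exact h5
  have hbt2 : (⌊(bet P₂ c 2 a a + y' * q) * J⌋₊ : ℝ) ≤ L 2 t t * J + 2 * U + 5 * (y' * U) := by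
    have h5 := rn 2 (by norm_num) J
    rw [← hU, h2] at h5
    exact h5
  have hbt1 : (⌊(bet P c 1 a₂ w₂ + y' * q) * J⌋₊ : ℝ) ≤ L 1 t t * J + U + 10 * (y' * U) := by
    have h5 := rlf J
    rw [← hU] at h5
    linarith only [h5, hyU, hCR]
  have hbt3 : (⌊(bet P₂ c 3 a w' + y' * q) * J⌋₊ : ℝ) + Q' + 5 * (y' * U) ≤
      L 3 t t * J + b * U := by
    have h5 : (⌊(bet P₂ c 3 a w' + y' * q) * J⌋₊ : ℝ) ≤ L 3 t t * J + b * U + 3 * (y' * U) -
        del * U := by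
      refine fl_le_of' ?_ ?_
      · have h7 : bet P₂ c 3 a w' + y' * q ≤ L 3 t t + b * q + 3 * (y' * q) - del * q := by
          linarith only [rt3, hcon, L13, hyq]
        have h8 := mul_le_mul_of_nonneg_right h7 hJ0
        have h9 : (L 3 t t + b * q + 3 * (y' * q) - del * q) * J = L 3 t t * J + b * U +
            3 * (y' * U) - del * U := by rw [hU]; ring
        rw [h9] at h8
        exact h8
      · have h7 := (R.lawL 3 le_rfl).mono_a t (t + q) t (by linarith only [ht0, hKq1, hq]) le_rfl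
          (by linarith only [hq]) (by linarith only [ht1, hKq1, hq])
        have h8 : L 3 t t ≤ L 3 t t + b * q + 3 * (y' * q) - del * q := by
          linarith only [h7, hcon, L13, hyq]
        have h9 := mul_le_mul_of_nonneg_right h8 hJ0
        have h9' : (L 3 t t + b * q + 3 * (y' * q) - del * q) * J = L 3 t t * J + b * U +
            3 * (y' * U) - del * U := by rw [hU]; ring
        rw [h9'] at h9
        have h10 := hap.lo 2 (by norm_num) 3 le_rfl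
        rw [q2] at h10
        have h11 : 0 ≤ (K - y') * U := mul_nonneg (by linarith only [hK3, hy'1]) hU0
        linarith only [h9, h10, h11]
    linarith only [h5, Q'R, hCyU, hmU2, hyUs, yUC, hU0]
  obtain ⟨g', pv, x, d, f, n1, n2, n3, n4, n5, f₂, dd, yy, p₂, n6, n7, n8, n9, n10⟩ :=
    num_ts0 (M := M) (z := z) hap (fun l _ => Iff.rfl) h0 hs.symm h2 hb.symm h1 h3 q2 q3
    ⟨3, hzN, hz3⟩ (by rw [q1]; linarith only [hA', hXR]) (by rw [q1]; linarith only [h1])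
    (by linarith only [hA6]) (by rw [q0]; exact v0a) (by rw [q0, q1]; exact v0b)
    (by rw [q0]; exact v0c) (by rw [q1]; linarith only [hK, v0d, KA, hA6, h1])
    (by linarith only [KA, h1]) (by linarith only [KA, hA6, h1])
    (by rw [q0]; linarith only [Kv]) (by rw [q1]; linarith only [h1])
    (by linarith only [KA, hA6]) y'3 (X := X) (X' := X') (Q := Q) (Q' := Q')
    (by rw [XR]; linarith only [c2, hyU, hCR]) hXXn
    (by linarith only [X'R, CyU, hCyU, hmU1, hU0])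
    (by linarith only [X'R, CyU, hCyU, hmU3, hU0, hmU1, yU0])
    (by linarith only [QR, CyU, hCyU, hmU1, hU0])
    (by linarith only [Q'R, hCyU, hmU1, hU0])
    (a₁ := ⌊(a : ℝ) * J⌋₊) (e₁ := ⌊e₂' * J⌋₊) (b0 := ⌊(bet P₂ c 0 a a + y' * q) * J⌋₊)
    (b2 := ⌊(bet P₂ c 2 a a + y' * q) * J⌋₊) (at' := ⌊(a : ℝ) * J⌋₊) (wt' := ⌊(w' : ℝ) * J⌋₊)
    (eb' := ⌊e₂' * J⌋₊) (bt' := ⌊(bet P₂ c 3 a w' + y' * q) * J⌋₊) hwe3 heb hbt0 hbt2 hwe3 hwe2
    heb hbt3 (X₂ := X) (Y := Y) (Q₂ := Q) (Q₃ := Q₃) (at₂ := ⌊(a₂ : ℝ) * J⌋₊)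
    (wt₂ := ⌊(w₂ : ℝ) * J⌋₊) (eb₂ := ⌊e₂' * J⌋₊) (bt₂ := ⌊(bet P c 1 a₂ w₂ + y' * q) * J⌋₊)
    (by rw [XR]; linarith only [c2, hyU, hCR]) (by linarith only [hYR, yUC, hCyU, hmU1, hU0])
    (by linarith only [QR, CyU, hCyU, hmU1, hU0]) (by linarith only [Q3R, CyU, hCyU, hmU1, hU0])
    (by linarith only [X'e, c2, Nat.cast_nonneg (α := ℝ) Q]) hwl3 hwl2 heb hbt1
  -- the exponent of the list
  have heL : (eL : ℝ) ≤ Eb' * J + y * U := by
    have h5 := hlip.1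
    have h9 : (Eb' + y * q) * J = Eb' * J + y * U := by rw [hU]; ring
    rw [h9] at h5
    exact h5
  have hKU : 3 * U ≤ K * U := mul_le_mul_of_nonneg_right hK3 hU0
  have heL1 : eL + Q₃ ≤ ⌊e' * J⌋₊ := by
    refine nat_le_of_real ?_
    push_cast
    have h5 := Nat.lt_floor_add_one (e' * J)
    have h6 := mul_le_mul_of_nonneg_right RL.Ebe.le hJ0
    have h9 : (Eb' + 3 * K * q) * J = Eb' * J + 3 * (K * U) := by rw [hU]; ring
    rw [h9] at h6
    linarith only [h5, h6, heL, hKU, Q3R, CyU, hCyU, hmU1, yUC, hU0, hyU, hyUs, hCR]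
  have heL2 : ∀ l ≤ 1, eL + g₀ 3 l + Q₃ ≤ J := fun l hl => by
    refine nat_le_of_real ?_
    push_cast
    have h5 := mul_le_mul_of_nonneg_right (RL.room l hl (t + q) bx1).le hJ0
    have h9 : (L l (t + q) (t + q) + Eb' + 3 * K * q) * J = L l (t + q) (t + q) * J + Eb' * J +
        3 * (K * U) := by rw [hU]; ring
    rw [h9, one_mul] at h5
    have h6 := (abs_le.1 ((hnum 3 le_rfl).2.2.1 l (by omega)).1).2
    rw [q3, one_mul] at h6
    have h7 : y' * q * J = y' * U := by rw [hU]; ring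
    rw [h7] at h6
    linarith only [h5, h6, heL, hKU, Q3R, CyU, hCyU, hmU1, yUC, hU0, hyUs]
  have hfin := hA2 E hBA (by
      have : y' * q / 2 * J = y' * U / 2 := by rw [hU]; ring
      rw [this]
      linarith only [c2, hyU, hCR]) (nat_le_of_real (by linarith only [c2, hyU]))
    (X := X) (X' := X') n1 (by rw [← hQ]; exact hQXn) (le_max_left _ _)
    (le_max_right _ _) n2 (fun l _ => Iff.rfl) (Or.inr n3) (by
      have h5 : (t + K * q) * J = t * J + K * U := by rw [hU]; ring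
      rw [h5]
      linarith only [W3.2, hKU, hU0]) (by rw [← hQ]; exact n4) (by rw [← hQ']; exact n5)
    (X₂ := X) (Y := Y) (eL := eL) (t := 2) (mu := muA c (w 2) (w 1) mu (Ht 1)) n6
    (by rw [← hQ]; exact n7) (by rw [← hQ]; exact n8) n9
    (muA_deg hmud (E.evs 1 (by norm_num)).dH (by omega))
    (fun ω hω => by
      have h12 : w 1 ≤ w 2 := hap.wm 1 (by norm_num) 2 (by norm_num) (by
        rw [q1, q2]
        linarith only [h1])
      have h5 := hmu ω hω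
      rw [jA_last E (by norm_num) (by norm_num) le_rfl ω, muA_rt F c h12
        ((hap.wA 2 (by norm_num)).trans hap.AJ)]
      rw [← mul_div_assoc]
      refine le_trans (le_of_eq ?_) h5
      rw [abs_sub_comm]
      congr 1
      ring)
    (fun ω hω => hlip.2 ω hω 3 le_rfl) (by rw [← hQ₃]; exact NumG.exp n10 heL1 heL2)
  have h5 : Pe F.p A₀ ≤ K₁ * Pe F.p B := hBP
  have h6 : 1 / K₁ * Pe F.p A₀ ≤ Pe F.p B := by
    rw [div_mul_eq_mul_div, one_mul, div_le_iff₀ hK₁]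
    linarith only [h5]
  linarith only [hfin, h6]

end Pool.TSC88
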