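import Pool.Agent.H90.D2.Mua

/-!
# The change of the relative gradient in the direction of the place one along a fine chain

`gnd_one`: the place one is steeper than the place two; the frame is the one of the first window.
-/

set_option autoImplicit false

namespace Pool.TSC88

open Finset Real MvPolynomial
open Pool.Agent.H49.Ent Pool.Agent.H32.Dense Pool.STK Pool.KA Pool.KSAT Pool.K2S Pool.PB Pool.S6C
open Pool.GEN Pool.CHT Pool.CHX Pool.ISO Pool.D2R Pool.D2Z Pool.D2F Pool.TN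
open Pool.AVG57 (LbsE ClU)
open Pool.FLF (Fam.sub)
open Pool.PB.Trl (rt rt_mem t_rt)
open Pool.BFL (Pb)
open Pool.PKG (RecQ Kd)

/-- One step of a chain: the target `3` in the directions of the places `1` and `2`. -/
theorem gnd_step (D : ℕ) : ∃ C : ℕ, 1 ≤ C ∧ ∀ {m J : ℕ} {F : Fam m J} {c : ℕ → Fin m}
    {Dr N M : ℕ} {C₀ a Eb ηm : ℝ} {o η σ : ℕ → ℝ} {lv b : ℕ → ℕ → ℝ}
    {κ : ℝ} {z : ℕ → ℕ → ℕ} {B : F.Ω → Prop} {g₀ : ℕ → ℕ → ℕ}
    {G : ℕ → PtT F → ℕ → MvPolynomial (Option (Fin m)) ℝ}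
    {H : ℕ → LnT F → ℕ → MvPolynomial (Option (Fin m)) ℝ}
    (_ : WinB F c 3 D Dr N M C₀ a Eb ηm o η σ lv b κ z B g₀ G H)
    {x y j Y : ℕ}, Set.InjOn c (Set.Iio (3 + 1)) → x ≤ N → y ≤ N →
    (j ≤ M ∧ z x j = ⌊o y * J⌋₊ - ⌊o x * J⌋₊ ∧ o x ≤ o y) → C₀ * (ηm * J) ≤ Y → 3 ≤ Y →
    (∀ l ≤ 3, (lv y l - lv x l) * J ≤ Y ∧ (lv x l - lv y l) * J ≤ Y) → ∀ ω, B ω → ∀ l < 3,
    |gnh F c 3 (g₀ x) (G x) (G y) ω l| ≤ 2 ^ (C * Y) := by
  obtain ⟨C, hC, h⟩ := winb_grd D 3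
  refine ⟨C, hC, ?_⟩
  intro m J F c Dr N M C₀ a Eb ηm o η σ lv b κ z B g₀ G H W x y j Y hc hx hy hst hY hY3 hlv ω hω l hl
  have hJ : (0 : ℝ) ≤ J := Nat.cast_nonneg J
  have hY3R : (3 : ℝ) ≤ Y := by exact_mod_cast hY3
  obtain ⟨f, hf⟩ : ∃ f : ℕ → ℕ, f = fun k => if k = 0 then x else y := ⟨_, rfl⟩
  have f0 : f 0 = x := by rw [hf]; rfl
  have f1 : f 1 = y := by rw [hf]; rfl
  obtain ⟨h1, -⟩ := h W (f := f) (jj := fun _ => j) (n := 1)
      (i := 3) (k₀ := 0) (ks := 0) (q := 3) (X := 0) (Y := Y) (S := 0) (b' := 0) hc le_rfl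
      (fun k' hk' => by
        have h5 : k' = 0 ∨ k' = 1 := by omega
        rcases h5 with rfl | rfl
        · rw [f0]; exact hx
        · rw [f1]; exact hy) (fun k' hk' => by
        have : k' = 0 := by omega
        subst this
        rw [f0, zero_add, f1]
        exact hst) hY hY3 (by
        rw [Nat.cast_one]
        exact one_le_pow₀ (by norm_num)) le_rfl le_rfl (fun k' hk' => by
        have : k' = 0 := by omega
        subst this
        rw [f0, zero_add, f1]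
        exact hlv) (fun k' _ => by rw [zero_mul]; linarith only [hY3R])
      (fun k' k'' hkk hk'' l hl _ => by
        rw [zero_mul, zero_add]
        have h5 : (k' = 0 ∧ k'' = 0) ∨ (k' = 0 ∧ k'' = 1) ∨ (k' = 1 ∧ k'' = 1) := by omega
        rcases h5 with ⟨rfl, rfl⟩ | ⟨rfl, rfl⟩ | ⟨rfl, rfl⟩
        · rw [sub_self, zero_mul]
          linarith only [hY3R]
        · rw [f0, f1]
          exact (hlv l (by omega)).1
        · rw [sub_self, zero_mul]
          linarith only [hY3R]) (fun k' hk' => by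
        rw [zero_mul]
        have h5 : k' = 0 ∨ k' = 1 := by omega
        rcases h5 with rfl | rfl
        · rw [sub_self, zero_mul]
          linarith only [hY3R]
        · have h6 := (hlv 3 le_rfl).2
          have h7 : (lv (f 1) 3 - lv (f 0) 3) * J =
              -((lv x 3 - lv y 3) * J) := by
            rw [f0, f1]
            ring
          rw [h7]
          linarith only [h6]) (by norm_num) (by
        push_cast
        linarith only [hY3R]) (Nat.zero_le _) (Nat.zero_le _) (by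
        push_cast
        linarith only [hY3R])
  have h2 := h1 ω hω l hl (Nat.zero_le _)
  rw [f0, f1] at h2
  exact h2

/-- **The change of the relative gradient in the direction of the place one** from the window `f n'`
to the window `f n`, in the frame of the window `f 0`. -/
theorem gnd_one (D : ℕ) : ∃ C : ℕ, 1 ≤ C ∧ ∀ {m : ℕ} {S : PCl m}
    {P P₂ : List (Fin m) × Fin m → ℝ → ℝ → ℝ} {θ θ₂ : ℝ} {c : ℕ → Fin m} {Pt : ℝ → ℝ → ℝ}
    {L T : ℕ → ℝ → ℝ → ℝ} {Sl : ℕ → ℝ} {kd : ℕ → Kd} {S₀ N : ℕ} {A V : ℕ → ℝ} {S₂ N' : ℕ}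
    {V' : ℕ → ℝ} {Eb e₂ K ε q t : ℝ}
    (_ : RecQ S P P₂ θ θ₂ c 3 Pt L T Sl kd S₀ N A V S₂ N' V' Eb e₂ K ε q t)
    {J Dr N₃ : ℕ} {F : Fam m J} {CB a Eb' y₁ κ : ℝ} {u : ℕ → ℝ} {b : ℕ → ℕ → ℝ} {z : ℕ → ℕ → ℕ}
    {B : F.Ω → Prop} {g₀ : ℕ → ℕ → ℕ} {G : ℕ → PtT F → ℕ → MvPolynomial (Option (Fin m)) ℝ}
    {H : ℕ → LnT F → ℕ → MvPolynomial (Option (Fin m)) ℝ}
    (_ : WinB F c 3 D Dr N₃ N₃ CB a Eb' (y₁ * q) (fun k => t + u k * q) (fun _ => y₁ * q)
      (fun _ => y₁ * q) (fun k l => L l (t + u k * q) (t + u k * q)) b κ z B g₀ G H)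
    {f : ℕ → ℕ} {n n' p Y : ℕ} {u₀ β y₂ : ℝ}, ChF u N₃ n p u₀ K f → n' ≤ n →
    (∀ k < n, z (f k) (f (k + 1)) = ⌊(t + u (f (k + 1)) * q) * J⌋₊ -
      ⌊(t + u (f k) * q) * J⌋₊) → 0 ≤ ε → Y = ⌊y₂ * (q * J)⌋₊ → 4 * (CB * y₁) ≤ y₂ →
    8 * y₁ ≤ y₂ → 16 * ε ≤ y₂ → 16 * β ≤ y₂ * p → 8 ≤ y₂ * (q * J) → (n : ℝ) ≤ 2 ^ Y →
    (∀ l ≤ 3, |Sl l| ≤ β) → Sl 2 ≤ Sl 1 → Sl 1 ≤ Sl 3 → ∀ ω, B ω →
    |(grd (G (f n) (ptr F J ω) 3) (bt F ω) (some (c 1)) -
        grd (G (f n') (ptr F J ω) 3) (bt F ω) (some (c 1))) +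
      grd (G (f 0) (ptr F J ω) 2) (bt F ω) (some (c 1)) *
        (grd (G (f n) (ptr F J ω) 3) (bt F ω) (some (c 2)) -
          grd (G (f n') (ptr F J ω) 3) (bt F ω) (some (c 2)))| ≤
      2 ^ (C * Y) * (2 ^ g₀ (f n') 1 / 2 ^ g₀ (f n') 3) := by
  obtain ⟨C₁, hC₁, h⟩ := gnd_step D
  obtain ⟨C₂, hC₂, h2⟩ := grdTl D 3 2 (by norm_num) (by norm_num)
  refine ⟨C₁ + C₂ + C₁ + 4, by omega, ?_⟩
  intro m S P P₂ θ θ₂ c Pt L T Sl kd S₀ N A V S₂ N' V' Eb e₂ K ε q t R J Dr N₃ F CB a Eb' y₁ κ u b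
    z B g₀ G H W f n n' p Y u₀ β y₂ ch hnn hz hε hY hy₁ hy₁' hεy hβ hy₂ hn hSl hS21 hS13 ω hω
  have hq := R.q0
  have hJ : (0 : ℝ) ≤ J := Nat.cast_nonneg J
  obtain ⟨U, hU⟩ : ∃ U : ℝ, U = q * J := ⟨_, rfl⟩
  have hU0 : 0 ≤ U := by rw [hU]; positivity
  have hp : (0 : ℝ) < p := by exact_mod_cast ch.p1
  have hYl : y₂ * U - 1 ≤ Y := by
    rw [hY, hU]
    linarith only [Nat.lt_floor_add_one (y₂ * (q * J))]
  have hy₂' := hy₂
  rw [← hU] at hy₂
  have hY7 : y₂ * U / 2 + 3 ≤ Y := by linarith only [hYl, hy₂]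
  have hβp : β / p ≤ y₂ / 16 := by
    rw [div_le_iff₀ hp]
    linarith only [hβ]
  have hβ0 : 0 ≤ β := (abs_nonneg _).trans (hSl 3 le_rfl)
  have hβU : 2 * (β / p) * U ≤ y₂ * U / 8 := by
    have := mul_le_mul_of_nonneg_right hβp hU0
    linarith only [this]
  have hεU : 2 * ε * U ≤ y₂ * U / 8 := by
    have := mul_le_mul_of_nonneg_right hεy hU0
    linarith only [this]
  have hy₁U : 2 * y₁ * U ≤ y₂ * U / 4 := by
    have := mul_le_mul_of_nonneg_right hy₁' hU0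
    linarith only [this]
  have hβU0 : 0 ≤ β / p * U := by positivity
  have hY3 : 3 ≤ Y := by
    have : (3 : ℝ) ≤ Y := by linarith only [hYl, hy₂, hY7]
    exact_mod_cast this
  have hlv : ∀ k ≤ n, ∀ k' ≤ n, ∀ l ≤ 3, Sl l * ((u (f k) - u (f k')) * U) - 2 * ε * U ≤
      (L l (t + u (f k) * q) (t + u (f k) * q) - L l (t + u (f k') * q) (t + u (f k') * q)) * J ∧
      (L l (t + u (f k) * q) (t + u (f k) * q) - L l (t + u (f k') * q) (t + u (f k') * q)) * J ≤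
      Sl l * ((u (f k) - u (f k')) * U) + 2 * ε * U := by
    intro k hk k' hk' l hl
    rw [hU]
    exact RecQ.dLd R hl (ch.fK k hk) (ch.fK k' hk') J
  have hstepS : ∀ l ≤ 3, |Sl l * (1 / p * U)| ≤ β / p * U := by
    intro l hl
    rw [abs_mul, abs_of_nonneg (show (0 : ℝ) ≤ 1 / p * U by positivity)]
    calc _ ≤ β * (1 / p * U) := mul_le_mul_of_nonneg_right (hSl l hl) (by positivity)
      _ = _ := by ring
  have hCBq : CB * (y₁ * q * J) ≤ Y := by
    have h1 : CB * (y₁ * q * J) = CB * y₁ * U := by rw [hU]; ring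
    have h2 := mul_le_mul_of_nonneg_right hy₁ hU0
    rw [h1]
    linarith only [h2, hY7, hy₂]
  have hnum : ∀ k ≤ N₃, ∀ l ≤ 3, L l (t + u k * q) (t + u k * q) * J - y₁ * U ≤ g₀ k l ∧
      (g₀ k l : ℝ) ≤ L l (t + u k * q) (t + u k * q) * J := fun k hk l hl => by
    obtain ⟨h1, h2⟩ := W.sds k hk l hl
    refine ⟨?_, h2⟩
    have : (L l (t + u k * q) (t + u k * q) - y₁ * q) * J =
        L l (t + u k * q) (t + u k * q) * J - y₁ * U := by rw [hU]; ring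
    linarith only [this, h1]
  have hci : Set.InjOn c (Set.Iio 3) := R.inj.mono (Set.Iio_subset_Iio (by norm_num))
  have hdep : ∀ k ≤ N₃, ∀ y l, DepC c l (G k y l) := fun k hk y l => (W.ev k hk).ball.depG y l
  obtain ⟨ρ, hρ⟩ : ∃ ρ : ℝ, ρ = 2 ^ g₀ (f n') 1 / 2 ^ g₀ (f n') 3 := ⟨_, rfl⟩
  have hρ0 : 0 < ρ := by rw [hρ]; positivity
  obtain ⟨g1, hg1⟩ : ∃ g1 : ℕ → ℝ, g1 = fun k => grd (G (f k) (ptr F J ω) 3) (bt F ω) (some (c 1)) :=
    ⟨_, rfl⟩
  obtain ⟨g2, hg2⟩ : ∃ g2 : ℕ → ℝ, g2 = fun k => grd (G (f k) (ptr F J ω) 3) (bt F ω) (some (c 2)) :=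
    ⟨_, rfl⟩
  obtain ⟨d, hd⟩ : ∃ d : ℕ → ℝ, d = fun k => grd (G (f k) (ptr F J ω) 2) (bt F ω) (some (c 1)) :=
    ⟨_, rfl⟩
  have hstep : ∀ k, n' ≤ k → k < n → |(g1 (k + 1) - g1 k) + d 0 * (g2 (k + 1) - g2 k)| ≤
      2 ^ ((C₁ + C₂ + C₁ + 3) * Y) * ρ := by
    intro k hk1 hk
    have hfk := ch.fN k hk.le
    have hfk1 := ch.fN (k + 1) hk
    -- one step
    have h1 := h W (x := f k) (y := f (k + 1)) (j := f (k + 1)) (Y := Y) R.inj hfk hfk1
      ⟨hfk1, hz k hk, by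
        have h1 : u (f k) ≤ u (f (k + 1)) := by
          rw [← ch.le hk]
          have : (0 : ℝ) ≤ 1 / p := by positivity
          linarith only [this]
        have := mul_le_mul_of_nonneg_right h1 hq.le
        show t + u (f k) * q ≤ t + u (f (k + 1)) * q
        linarith only [this]⟩ hCBq hY3 (fun l hl => by
        have h1 := hlv (k + 1) hk k hk.le l hl
        have h2 : u (f (k + 1)) - u (f k) = 1 / p := by rw [← ch.le hk]; ring
        rw [h2] at h1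
        have h3 := abs_le.1 (hstepS l hl)
        constructor
        · linarith only [h1.2, h3.2, hβU, hεU, hY7, hy₂, hβU0]
        · have h4 : (L l (t + u (f k) * q) (t + u (f k) * q) -
            L l (t + u (f (k + 1)) * q) (t + u (f (k + 1)) * q)) * J =
            -((L l (t + u (f (k + 1)) * q) (t + u (f (k + 1)) * q) -
              L l (t + u (f k) * q) (t + u (f k) * q)) * J) := by ring
          rw [h4]
          linarith only [h1.1, h3.1, hβU, hεU, hY7, hy₂, hβU0]) ω hω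
    have a1 := h1 1 (by norm_num)
    have a2 := h1 2 (by norm_num)
    rw [gnh31 hci (g₀ (f k)) (hdep _ hfk) (hdep _ hfk1) ω] at a1
    have e2 := gnh_last (show 1 ≤ 3 by norm_num) hci (g₀ (f k)) (hdep _ hfk) (hdep _ hfk1) ω
    norm_num only at e2
    rw [e2] at a2
    -- the frame
    have hufk : u (f k) = u₀ + k / p := ch.fu k hk.le
    have h3 := h2 R W (f := f) (n := k) (p := p) (k₀ := f k) (Y := Y) (u₀ := u₀) (β := β) (y₂ := y₂)
      ⟨ch.p1, fun k' hk' => ch.fN k' (by omega), fun k' hk' => ch.fu k' (by omega),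
        fun k' hk' => ch.fK k' (by omega)⟩ hfk (ch.fK k hk.le)
      (fun k' hk' => hz k' (by omega)) hε hY hy₁ hy₁' hεy hβ hy₂'
      (le_trans (by exact_mod_cast hk.le) hn) hSl
      (fun k' hk' => by
        norm_num only
        rw [ch.fu k' (by omega), hufk]
        have e3 : (Sl 1 - Sl 2) * (u₀ + k' / p - (u₀ + k / p)) = -((Sl 1 - Sl 2) * ((k - k') / p)) := by
          ring
        rw [e3]
        have h4 : (0 : ℝ) ≤ ((k : ℝ) - k') / p := div_nonneg (by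
          have : (k' : ℝ) ≤ k := by exact_mod_cast hk'.le
          linarith only [this]) hp.le
        have := mul_nonneg (show 0 ≤ Sl 1 - Sl 2 by linarith only [hS21]) h4
        linarith only [this]) ω hω
    norm_num only at h3
    -- the numbers of the window
    have hρk : (2 : ℝ) ^ g₀ (f k) 1 / 2 ^ g₀ (f k) 3 ≤ 2 ^ Y * ρ := by
      rw [hρ, div_le_iff₀ (by positivity)]
      have e1 : (2 : ℝ) ^ Y * (2 ^ g₀ (f n') 1 / 2 ^ g₀ (f n') 3) * 2 ^ g₀ (f k) 3 =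
          2 ^ (Y + g₀ (f n') 1 + g₀ (f k) 3) / 2 ^ g₀ (f n') 3 := by
        rw [pow_add, pow_add]
        ring
      rw [e1, le_div_iff₀ (by positivity), ← pow_add]
      refine pow_le_pow_right₀ (by norm_num) ?_
      have b1 := (hnum (f k) hfk 1 (by norm_num)).2
      have b2 := (hnum (f k) hfk 3 le_rfl).1
      have b3 := (hnum (f n') (ch.fN n' hnn) 1 (by norm_num)).1
      have b4 := (hnum (f n') (ch.fN n' hnn) 3 le_rfl).2
      have b5 := (hlv k hk.le n' hnn 1 (by norm_num)).2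
      have b6 := (hlv k hk.le n' hnn 3 le_rfl).1
      have b7 : (Sl 1 - Sl 3) * ((u (f k) - u (f n')) * U) ≤ 0 := by
        rw [hufk, ch.fu n' hnn]
        have e4 : (Sl 1 - Sl 3) * ((u₀ + k / p - (u₀ + n' / p)) * U) =
          -((Sl 3 - Sl 1) * ((k - n') / p * U)) := by ring
        rw [e4]
        have h4 : (0 : ℝ) ≤ ((k : ℝ) - n') / p := div_nonneg (by
          have : (n' : ℝ) ≤ k := by exact_mod_cast hk1
          linarith only [this]) hp.le
        have := mul_nonneg (show 0 ≤ Sl 3 - Sl 1 by linarith only [hS13]) (mul_nonneg h4 hU0)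
        linarith only [this]
      have b8 : ((g₀ (f k) 1 + g₀ (f n') 3 : ℕ) : ℝ) ≤
          ((Y + g₀ (f n') 1 + g₀ (f k) 3 : ℕ) : ℝ) := by
        push_cast
        have b9 : (Sl 1 - Sl 3) * ((u (f k) - u (f n')) * U) =
          Sl 1 * ((u (f k) - u (f n')) * U) - Sl 3 * ((u (f k) - u (f n')) * U) := by ring
        rw [b9] at b7
        linarith only [b1, b2, b3, b4, b5, b6, b7, hεU, hy₁U, hY7, hy₂]
      exact_mod_cast b8
    -- the sum
    have x1 : |(g1 (k + 1) - g1 k) + d k * (g2 (k + 1) - g2 k)| ≤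
        2 ^ (C₁ * Y) * (2 ^ g₀ (f k) 1 / 2 ^ g₀ (f k) 3) := by
      rw [hg1, hg2, hd]
      beta_reduce
      rw [abs_mul, abs_of_pos (by positivity), div_mul_eq_mul_div, div_le_iff₀ (by positivity)] at a1
      rw [mul_div_assoc', le_div_iff₀ (by positivity), mul_comm]
      exact a1
    have x2 : |g2 (k + 1) - g2 k| ≤ 2 ^ (C₁ * Y) * (2 ^ g₀ (f k) 2 / 2 ^ g₀ (f k) 3) := by
      rw [hg2]
      beta_reduce
      rw [abs_mul, abs_of_pos (by positivity), div_mul_eq_mul_div, div_le_iff₀ (by positivity)] at a2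
      rw [mul_div_assoc', le_div_iff₀ (by positivity), mul_comm]
      exact a2
    have x3 : |d k - d 0| ≤ 2 ^ (C₂ * Y) * (2 ^ g₀ (f k) 1 / 2 ^ g₀ (f k) 2) := by
      rw [hd]
      exact h3
    have x4 : |(d k - d 0) * (g2 (k + 1) - g2 k)| ≤
        2 ^ (C₁ * Y + C₂ * Y) * (2 ^ g₀ (f k) 1 / 2 ^ g₀ (f k) 3) := by
      rw [abs_mul]
      refine (mul_le_mul x3 x2 (abs_nonneg _) (by positivity)).trans (le_of_eq ?_)
      rw [pow_add]
      field_simp
    have e5 : (g1 (k + 1) - g1 k) + d 0 * (g2 (k + 1) - g2 k) =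
      ((g1 (k + 1) - g1 k) + d k * (g2 (k + 1) - g2 k)) - (d k - d 0) * (g2 (k + 1) - g2 k) := by
      ring
    rw [e5]
    refine (abs_sub _ _).trans ((add_le_add x1 x4).trans ?_)
    have y1 : (2 : ℝ) ^ (C₁ * Y) ≤ 2 ^ (C₁ * Y + C₂ * Y) :=
      pow_le_pow_right₀ (by norm_num) (Nat.le_add_right _ _)
    have y2 : (0 : ℝ) ≤ 2 ^ g₀ (f k) 1 / 2 ^ g₀ (f k) 3 := by positivity
    calc _ ≤ 2 ^ (C₁ * Y + C₂ * Y) * (2 ^ g₀ (f k) 1 / 2 ^ g₀ (f k) 3) +
          2 ^ (C₁ * Y + C₂ * Y) * (2 ^ g₀ (f k) 1 / 2 ^ g₀ (f k) 3) :=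
        add_le_add (mul_le_mul_of_nonneg_right y1 y2) le_rfl
      _ = 2 ^ (C₁ * Y + C₂ * Y + 1) * (2 ^ g₀ (f k) 1 / 2 ^ g₀ (f k) 3) := by
        rw [pow_succ]
        ring
      _ ≤ 2 ^ (C₁ * Y + C₂ * Y + 1) * (2 ^ Y * ρ) :=
        mul_le_mul_of_nonneg_left hρk (by positivity)
      _ = 2 ^ (C₁ * Y + C₂ * Y + 1 + Y) * ρ := by
        rw [pow_add _ _ Y]
        ring
      _ ≤ _ := by
        refine mul_le_mul_of_nonneg_right (pow_le_pow_right₀ (by norm_num) ?_) hρ0.le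
        have : (C₁ + C₂ + C₁ + 3) * Y = C₁ * Y + C₂ * Y + C₁ * Y + 3 * Y := by ring
        rw [this]
        have := Nat.zero_le (C₁ * Y)
        omega
  have hall : ∀ j, n' + j ≤ n → |(g1 (n' + j) - g1 n') + d 0 * (g2 (n' + j) - g2 n')| ≤
      j * (2 ^ ((C₁ + C₂ + C₁ + 3) * Y) * ρ) := by
    intro j
    induction j with
    | zero =>
      intro _
      rw [add_zero, sub_self, sub_self, mul_zero, add_zero, abs_zero, Nat.cast_zero, zero_mul]
    | succ j ih =>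
      intro hj
      have h5 := ih (by omega)
      have h6 := hstep (n' + j) (by omega) (by omega)
      have e6 : (g1 (n' + (j + 1)) - g1 n') + d 0 * (g2 (n' + (j + 1)) - g2 n') =
        ((g1 (n' + j + 1) - g1 (n' + j)) + d 0 * (g2 (n' + j + 1) - g2 (n' + j))) +
        ((g1 (n' + j) - g1 n') + d 0 * (g2 (n' + j) - g2 n')) := by
        rw [← add_assoc n' j 1]
        ring
      rw [e6]
      refine (abs_add_le _ _).trans ((add_le_add h6 h5).trans (le_of_eq ?_))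
      push_cast
      ring
  have hfin := hall (n - n') (by omega)
  rw [show n' + (n - n') = n by omega] at hfin
  have e7 : (2 : ℝ) ^ ((C₁ + C₂ + C₁ + 4) * Y) = 2 ^ Y * 2 ^ ((C₁ + C₂ + C₁ + 3) * Y) := by
    rw [← pow_add]
    congr 1
    ring
  have h8 : ((n - n' : ℕ) : ℝ) ≤ 2 ^ Y := le_trans (by exact_mod_cast Nat.sub_le _ _) hn
  have h9 : |(g1 n - g1 n') + d 0 * (g2 n - g2 n')| ≤ 2 ^ ((C₁ + C₂ + C₁ + 4) * Y) * ρ := by
    rw [e7, mul_assoc]
    exact hfin.trans (mul_le_mul_of_nonneg_right h8 (by positivity))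
  rw [hg1, hg2, hd, hρ] at h9
  exact h9

end Pool.TSC88
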