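import Pool.Agent.H31.D2.Mud
import Pool.Agent.H3.SWP.Swp

/-!
# The numbers of the closed gradient of the place two with a deep spectator

`MuT`: the numbers `MuS` at the swapped slopes, and the loss `σ` of the change of the frame.
-/

set_option autoImplicit false

namespace Pool.TSC88

open Pool.TN (MuS MuN)
open Pool.SWP (sw sw_k sw_k1 sw_lt sw_gt)

/-- **The numbers of the closed gradient** of the target `3` in the direction of the place `2`; the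
place `1` is a steeper spectator below `2`. -/
structure MuT (X' X : ℕ) (Sl : ℕ → ℝ) (Sm ξ' qr' μ' vj' κ₁ ξ qr μ vj κ₂ dW τ E σ : ℝ) : Prop where
  S : MuS 1 X' X (fun l => Sl (sw 1 l)) Sm ξ' qr' μ' vj' κ₁ ξ qr μ vj κ₂ dW τ E
  s0 : 0 < σ
  s1 : 2 * σ ≤ τ
  s2 : 8 * σ ≤ μ
  s3 : ξ + σ ≤ qr
  s4 : ξ' + σ ≤ qr'

variable {X' X : ℕ} {Sl : ℕ → ℝ} {Sm ξ' qr' μ' vj' κ₁ ξ qr μ vj κ₂ dW τ E σ : ℝ}

theorem MuT.sm (h : MuT X' X Sl Sm ξ' qr' μ' vj' κ₁ ξ qr μ vj κ₂ dW τ E σ) :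
    ∀ l < 3, Sl l ≤ Sm := by
  intro l hl
  have h0 := h.S.B.sm 0 (by norm_num)
  have h1 := h.S.B.sm 1 (by norm_num)
  have h2 := h.S.B.sm 2 (by norm_num)
  beta_reduce at h0 h1 h2
  rw [sw_lt one_pos] at h0
  rw [sw_k] at h1
  have e2 : sw 1 2 = 1 := sw_k1 1
  rw [e2] at h2
  have : l = 0 ∨ l = 1 ∨ l = 2 := by omega
  rcases this with rfl | rfl | rfl
  · exact h0
  · exact h2
  · exact h1

theorem MuT.sb (h : MuT X' X Sl Sm ξ' qr' μ' vj' κ₁ ξ qr μ vj κ₂ dW τ E σ) : Sm ≤ Sl 3 := by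
  have h0 := h.S.B.sb
  beta_reduce at h0
  have e3 : sw 1 (1 + 1 + 1) = 3 := sw_gt (by norm_num)
  rw [e3] at h0
  exact h0

theorem MuT.q2A (h : MuT X' X Sl Sm ξ' qr' μ' vj' κ₁ ξ qr μ vj κ₂ dW τ E σ) :
    qr' + ξ' ≤ Sl 3 * (X' + 1) := by
  have h0 := h.S.A.q2
  beta_reduce at h0
  have e3 : sw 1 (1 + 1 + 1) = 3 := sw_gt (by norm_num)
  rw [e3] at h0
  exact h0

theorem MuT.q2B (h : MuT X' X Sl Sm ξ' qr' μ' vj' κ₁ ξ qr μ vj κ₂ dW τ E σ) :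
    qr + ξ ≤ Sl 3 * (X + 1) := by
  have h0 := h.S.B.q2
  beta_reduce at h0
  have e3 : sw 1 (1 + 1 + 1) = 3 := sw_gt (by norm_num)
  rw [e3] at h0
  exact h0

theorem MuT.j2A (h : MuT X' X Sl Sm ξ' qr' μ' vj' κ₁ ξ qr μ vj κ₂ dW τ E σ) :
    ξ' ≤ (Sl 3 - Sm) * (vj' + 1) := by
  have h0 := h.S.A.j2
  beta_reduce at h0
  have e3 : sw 1 (1 + 1 + 1) = 3 := sw_gt (by norm_num)
  rw [e3] at h0
  exact h0

theorem MuT.j2B (h : MuT X' X Sl Sm ξ' qr' μ' vj' κ₁ ξ qr μ vj κ₂ dW τ E σ) :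
    ξ ≤ (Sl 3 - Sm) * (vj + 1) := by
  have h0 := h.S.B.j2
  beta_reduce at h0
  have e3 : sw 1 (1 + 1 + 1) = 3 := sw_gt (by norm_num)
  rw [e3] at h0
  exact h0

theorem MuT.df (h : MuT X' X Sl Sm ξ' qr' μ' vj' κ₁ ξ qr μ vj κ₂ dW τ E σ) :
    ξ + μ + τ ≤ (Sl 3 - Sl 1) * (X' + 1) := by
  have h0 := h.S.df
  beta_reduce at h0
  have e3 : sw 1 (1 + 2) = 3 := sw_gt (by norm_num)
  have e2 : sw 1 (1 + 1) = 1 := sw_k1 1
  rw [e3, e2] at h0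
  exact h0

theorem MuT.kx (h : MuT X' X Sl Sm ξ' qr' μ' vj' κ₁ ξ qr μ vj κ₂ dW τ E σ) :
    (Sl 3 - Sl 2) * 2 ≤ κ₂ * ξ := by
  have h0 := h.S.kx
  beta_reduce at h0
  have e3 : sw 1 (1 + 2) = 3 := sw_gt (by norm_num)
  have e2 : sw 1 1 = 2 := sw_k 1
  rw [e3, e2] at h0
  exact h0

end Pool.TSC88
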