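import Pool.Agent.H88.TSC.Dfa
import Pool.Agent.H88.TSC.Mut
import Pool.Agent.H90.D2.Muc
import Pool.Agent.H66.TSW.Cgt

/-!
# The event of the cell with a thin steep place under a static place

`cevmt`: one event of windows with the closed gradient of the target in the direction of the static
place two at the ball, from `CGt` (the place one is a steeper spectator).
-/

set_option autoImplicit false

namespace Pool.TSC88

open Finset Real MvPolynomial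
open Pool.Agent.H49.Ent Pool.Agent.H32.Dense Pool.STK Pool.KA Pool.KSAT Pool.K2S Pool.PB Pool.S6C
open Pool.GEN Pool.CHT Pool.CHX Pool.ISO Pool.D2R Pool.D2Z Pool.D2F Pool.TN
open Pool.AVG57 (LbsE ClU)
open Pool.TSW66 (CGt)
open Pool.FLF (Fam.sub)
open Pool.D2T (sh sh_rt sh_deg)
open Pool.PB.Trl (rt rt_mem t_rt)
open Pool.BFL (Pb)
open Pool.PKG (RecQ Kd)

open Pool.D2R in
/-- **The event of the cell** with the closed gradient at the ball. `u it = 0`: the window of the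
line, `u iK = 1`: the ball; the windows `-1 + k / p` are additional. -/
theorem cevmt (m S₀ : ℕ) (hS₀ : 1 ≤ S₀) : ∃ D₀ : ℕ, 1 ≤ D₀ ∧
    ∀ Dc : ℕ, D₀ ≤ Dc → ∀ S₂ : ℕ, S₀ ≤ S₂ → ∃ D : ℕ, D₀ ≤ D ∧ ∀ Dr : ℕ, D ≤ Dr →
    ∀ (Sl : ℕ → ℝ) (y gp : ℝ), 0 < y → y ≤ 1 / 8 → 0 < gp → (∀ l, 1 ≤ l → l ≤ 2 → 1 < Sl l) →
    (Sl 0 < Sl 1 ∧ Sl 0 < Sl 2) → Sl 2 ≤ Sl 1 → Sl 1 ≤ Sl 3 →
    ∀ (X' X : ℕ) (Sm ξ' qr' μ' vj' κ₁ ξ qr μ vj κ₂ dW τ E σ yp : ℝ), 0 < yp →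
    MuT X' X Sl Sm ξ' qr' μ' vj' κ₁ ξ qr μ vj κ₂ dW τ E σ →
    ∃ (n₀ p : ℕ) (s ε₀ y' : ℝ), 1 ≤ n₀ ∧ 1 ≤ p ∧ 0 < s ∧ (n₀ + 1) * s ≤ gp ∧ 0 < ε₀ ∧ 0 < y' ∧
    y' ≤ y ∧
    ∀ {S : PCl m} {P P₂ : List (Fin m) × Fin m → ℝ → ℝ → ℝ} {θ θ₂ : ℝ} {c : ℕ → Fin m}
    {Pt : ℝ → ℝ → ℝ} {L T : ℕ → ℝ → ℝ → ℝ} {kd : ℕ → Kd} {N : ℕ} {A V : ℕ → ℝ} {N' : ℕ}
    {V' : ℕ → ℝ} {Eb e₂ K ε q t : ℝ},
    RecQ S P P₂ θ θ₂ c 3 Pt L T Sl kd S₀ N A V S₂ N' V' Eb e₂ K ε q t → 0 ≤ ε →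
    ε ≤ ε₀ → 2 ≤ K → ∀ (A' : ℝ) (N₁ it iK : ℕ) (u : ℕ → ℝ) (Sc : ℕ → Prop), A' ≤ K →
    it ≤ N₁ → iK ≤ N₁ → u it = 0 → u iK = 1 →
    (∀ k ≤ N₁, -K + 1 ≤ u k ∧ u k + gp ≤ A') → X + gp ≤ A' →
    (∀ k ≤ N₁, ∃ j < N, A j = A' ∧ V j = u k) →
    (∀ k ≤ (X + 1) * p, u (N₁ + 1 + k) = -1 + k / p) →
    (∀ k ≤ (X + 1) * p, ∃ j < N', V' j = -1 + k / p) →
    (∀ k ≤ N₁, ∀ j, 1 ≤ j → j ≤ n₀ → ∃ j' < N', V' j' = u k + j * s) →
    (∀ l < 3, ¬ Sc l → kd l = .one ∨ kd l = .thin) →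
    ∀ (pl sl : ℕ → ℝ) (ι : ℝ) (k₁ : ℕ), (∀ l ≤ 3, pl l ≤ L l (t - q) (t - q) - yp * q ∧
      L l (t - q) (t - q) ≤ sl l) →
    CGt S c Dc (t - q) (dW * q) (t + vj' * q) (t + X' * q) (t + vj * q) (t + X * q) pl sl
      (qr' * q) (ξ' * q) (qr * q) (ξ * q) (μ * q) (σ * q) κ₂ ι k₁ (1 / 2) →
    ∃ K₁ : ℝ, 0 < K₁ ∧ ∀ κ : ℝ, 0 < κ → Bas S (fun J F A₀ =>
      ∃ (M : ℕ) (z : ℕ → ℕ → ℕ) (B : F.Ω → Prop) (e h pp : ℕ → ℕ) (g gc gT g₀ : ℕ → ℕ → ℕ)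
        (G : ℕ → PtT F → ℕ → MvPolynomial (Option (Fin m)) ℝ)
        (H : ℕ → LnT F → ℕ → MvPolynomial (Option (Fin m)) ℝ)
        (Th : ℕ → PtT F → ℕ → MvPolynomial (Option (Fin m)) ℝ)
        (TH : ℕ → LnT F → ℕ → MvPolynomial (Option (Fin m)) ℝ)
        (Gt : ℕ → PtT F → MvPolynomial (Option (Fin m)) ℝ)
        (Ht : ℕ → LnT F → MvPolynomial (Option (Fin m)) ℝ)
        (mu : LnT F → Polynomial ℝ), Sub B A₀ ∧
        Pe F.p A₀ ≤ K₁ * Pe F.p B ∧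
        CEv F c 3 D Dr N₁ M ⌊(t + A' * q) * J⌋₊ ⌊y' * q * J⌋₊ Sc
          (fun k => ⌊(t + u k * q) * J⌋₊) e h pp z g gc gT g₀ κ B G H Th TH Gt Ht ∧
        (N₁ ≤ M ∧ ∀ k ≤ N₁, ∀ k' ≤ N₁, u k + 1 / p ≤ u k' →
          z k k' = ⌊(t + u k' * q) * J⌋₊ - ⌊(t + u k * q) * J⌋₊) ∧
        (∀ s, (mu s).natDegree ≤ D + (2 * Dc + 2)) ∧
        (∀ ω, B ω → |(mu (slam F ⌊(t + u it * q) * J⌋₊ ω)).eval (rt F ⌊(t + u it * q) * J⌋₊ ω) -
          gG G ω iK 3 (some (c 2))| ≤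
          2 ^ ⌊y * q * J⌋₊ * 2 ^ g₀ iK 2 / 2 ^ g₀ iK 3) ∧
        ∀ k ≤ N₁, ((e k : ℝ) ≤ (Eb + y' * q) * J ∧ (h k : ℝ) ≤ y' * q * J) ∧
          (L 3 (t + A' * q) (t + u k * q) * J - y' * q * J ≤ pp k ∧
            (pp k : ℝ) ≤ L 3 (t + A' * q) (t + u k * q) * J) ∧
          (∀ l ≤ 3, |(g₀ k l : ℝ) - L l (t + u k * q) (t + u k * q) * J| ≤ y' * q * J ∧
            |(g k l : ℝ) - L l (t + u k * q) (t + u k * q) * J| ≤ y' * q * J) ∧
          ∀ l < 3, Sc l → |(gT k l : ℝ) - L l (t + A' * q) (t + u k * q) * J| ≤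
            y' * q * J) := by
  obtain ⟨D₀, hD₀, hcev⟩ := Pool.D2R.RecQ.cevx m 3 S₀ (by norm_num) le_rfl hS₀
  obtain ⟨Cl, hCl, hlbs⟩ := lbsE_of m D₀ 2
  refine ⟨D₀, hD₀, fun Dc hDc S₂ hSS => ?_⟩
  obtain ⟨D, hDD, hcev⟩ := hcev S₂ hSS
  refine ⟨D, hDD, fun Dr hDr => ?_⟩
  obtain ⟨CB, hCB, hcev⟩ := hcev Dr hDr
  obtain ⟨Cg, hCg, hgrd⟩ := grdA D 3
  obtain ⟨Ct, hCt, hgrt⟩ := grdTl D 3 3 (by norm_num) le_rfl
  obtain ⟨Cn, hCn, hgn1⟩ := gnd_one D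
  obtain ⟨Ca, hCa, hmuA⟩ := mu_evA D 3 (by norm_num)
  intro Sl y gp hy hy8 hgp hs1 hs3 hS21 hS13 X' X Sm ξ' qr' μ' vj' κ₁ ξ qr μ vj κ₂ dW τ Ef σ yp hyp MT
  have MU := MT.S
  have MA := MU.A
  have MB := MU.B
  have hXX := MU.XX
  have hdf := MT.df
  have hkx := MT.kx
  have hX2 : 2 ≤ X := MB.X2
  have hX'2 : 2 ≤ X' := MA.X2
  have hSm0 := MB.Sm0
  have hsm : ∀ l < 3, Sl l ≤ Sm := MT.sm
  have hsb : Sm ≤ Sl 3 := MT.sb
  have hq1A : Sm * (X' + 1) + τ ≤ qr' := MA.q1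
  have hq2A : qr' + ξ' ≤ Sl 3 * (X' + 1) := MT.q2A
  have hj2A : ξ' ≤ (Sl 3 - Sm) * (vj' + 1) := MT.j2A
  have hq1B : Sm * (X + 1) + τ ≤ qr := MB.q1
  have hq2B : qr + ξ ≤ Sl 3 * (X + 1) := MT.q2B
  have hj2B : ξ ≤ (Sl 3 - Sm) * (vj + 1) := MT.j2B
  have hτ0 := MB.t0
  have hμ0 := MB.m0
  have hκ20 := MB.k0
  have hξ0 := MB.x0
  have hξ'0 := MA.x0
  have hσ0 := MT.s0
  have hσ1 := MT.s1
  have hσ2 := MT.s2
  have hσ3 := MT.s3
  have hσ4 := MT.s4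
  have hCgR : (1 : ℝ) ≤ Cg := by exact_mod_cast hCg
  have hCtR : (1 : ℝ) ≤ Ct := by exact_mod_cast hCt
  have hCnR : (1 : ℝ) ≤ Cn := by exact_mod_cast hCn
  have hCaR : (1 : ℝ) ≤ Ca := by exact_mod_cast hCa
  -- the constant of the gradients
  obtain ⟨Cu, hCu⟩ : ∃ Cu : ℕ, Cu = Cg + Ct + Cn + 2 := ⟨_, rfl⟩
  have hCuR : (Cu : ℝ) = Cg + Ct + Cn + 2 := by rw [hCu]; push_cast; ring
  obtain ⟨β, hβ⟩ : ∃ β : ℝ, β = 1 + ∑ l ∈ range 4, |Sl l| := ⟨_, rfl⟩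
  have hβ1 : ∀ l ≤ 3, |Sl l| ≤ β := by
    intro l hl
    have := Finset.single_le_sum (f := fun l => |Sl l|) (fun _ _ => abs_nonneg _)
      (Finset.mem_range.2 (show l < 4 by omega))
    rw [hβ]
    linarith only [this]
  have hβ0 : 0 < β := by
    rw [hβ]
    have : 0 ≤ ∑ l ∈ range 4, |Sl l| := Finset.sum_nonneg fun _ _ => abs_nonneg _
    linarith only [this]
  obtain ⟨y₂, hy₂⟩ : ∃ y₂ : ℝ, y₂ = min (y / (2 * (Ca + 1))) (min (μ / (4 * Cu)) (τ / 4)) :=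
    ⟨_, rfl⟩
  have hCu0 : (0 : ℝ) < Cu := by linarith only [hCuR, hCgR, hCtR, hCnR]
  have hy₂0 : 0 < y₂ := by
    rw [hy₂]
    exact lt_min (by positivity) (lt_min (by positivity) (by positivity))
  have hy₂a : (Ca + 1) * y₂ ≤ y / 2 := by
    have h1 : y₂ ≤ y / (2 * (Ca + 1)) := by rw [hy₂]; exact min_le_left _ _
    rw [le_div_iff₀ (by positivity)] at h1
    linarith only [h1]
  have hy₂b : Cu * y₂ ≤ μ / 4 := by
    have h1 : y₂ ≤ μ / (4 * Cu) := by rw [hy₂]; exact (min_le_right _ _).trans (min_le_left _ _)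
    rw [le_div_iff₀ (by positivity)] at h1
    linarith only [h1]
  have hy₂c : 4 * y₂ ≤ τ := by
    have h1 : y₂ ≤ τ / 4 := by rw [hy₂]; exact (min_le_right _ _).trans (min_le_right _ _)
    linarith only [h1]
  have hy₂y : y₂ ≤ y := by
    have : y₂ ≤ (Ca + 1) * y₂ := le_mul_of_one_le_left hy₂0.le (by linarith only [hCaR])
    linarith only [this, hy₂a, hy]
  obtain ⟨y', hy'⟩ : ∃ y' : ℝ, y' = min (y₂ / 8) yp := ⟨_, rfl⟩
  have hy'0 : 0 < y' := by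
    rw [hy']
    exact lt_min (by positivity) hyp
  have hy'a : y' ≤ y₂ / 8 := by rw [hy']; exact min_le_left _ _
  have hy'b : y' ≤ yp := by rw [hy']; exact min_le_right _ _
  obtain ⟨n₀, s, ε₀, y₁, hn₀, hs, hns, hε₀, hy₁, hCBy, hcev⟩ :=
    hcev Sl y' gp hy'0 (by linarith only [hy'a, hy₂y, hy8, hy₂0]) hgp
      (fun l h1 h2 _ => hs1 l h1 h2) (fun _ => hs3)
  have hy₁y : y₁ ≤ y' := (le_mul_of_one_le_left hy₁.le hCB).trans hCBy
  obtain ⟨p, hp⟩ := exists_nat_ge (max (16 * β / y₂) (1 / gp))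
  have hp1 : 16 * β ≤ y₂ * p := by
    have h1 := (le_max_left _ _).trans hp
    rw [div_le_iff₀ hy₂0] at h1
    linarith only [h1]
  have hpR : (0 : ℝ) < p := by
    by_contra hcon
    have : y₂ * (p : ℝ) ≤ 0 := mul_nonpos_of_nonneg_of_nonpos hy₂0.le (not_lt.1 hcon)
    linarith only [this, hp1, hβ0]
  have hp0 : 1 ≤ p := by
    have : 0 < p := by exact_mod_cast hpR
    omega
  have hpg : 1 / (p : ℝ) ≤ gp := by
    have h1 := (le_max_right _ _).trans hp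
    rw [div_le_iff₀ hgp] at h1
    rw [div_le_iff₀ hpR]
    linarith only [h1]
  refine ⟨n₀, p, s, min ε₀ (y₂ / 16), y', hn₀, hp0, hs, hns, lt_min hε₀ (by positivity), hy'0,
    by linarith only [hy'a, hy₂y, hy₂0], ?_⟩
  intro S P P₂ θ θ₂ c Pt L T kd N A V N' V' Eb e₂ K ε q t R hε hεε hK A' N₁ it iK u Sc hAK hit hiK
    hut huK hub hXA hmn huc hxt hch hSc pl sl ι k₁ hpl hG
  have hεa : ε ≤ ε₀ := hεε.trans (min_le_left _ _)
  have hεb : 16 * ε ≤ y₂ := by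
    have := hεε.trans (min_le_right _ _)
    linarith only [this]
  have hq := R.q0
  have ht0 := R.t0
  have ht1 := R.t1
  obtain ⟨N₃, hN₃⟩ : ∃ N₃, N₃ = N₁ + 1 + (X + 1) * p := ⟨_, rfl⟩
  have hXR : (2 : ℝ) ≤ X := by exact_mod_cast hX2
  have hX'R : (2 : ℝ) ≤ X' := by exact_mod_cast hX'2
  have hXXR : (X' : ℝ) ≤ X := by exact_mod_cast hXX
  have hcs : ∀ k ≤ N₃, k ≤ N₁ ∨ ∃ j ≤ (X + 1) * p, k = N₁ + 1 + j := fun k hk => by
    rcases Nat.lt_or_ge N₁ k with h | h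
    · exact Or.inr ⟨k - (N₁ + 1), by omega, by omega⟩
    · exact Or.inl h
  have hchb : ∀ k ≤ (X + 1) * p, -1 ≤ (-1 + k / p : ℝ) ∧ (-1 + k / p : ℝ) ≤ X := fun k hk => by
    have h1 : (0 : ℝ) ≤ k / p := by positivity
    have h2 : (k : ℝ) / p ≤ X + 1 := by
      rw [div_le_iff₀ hpR]
      have : (k : ℝ) ≤ ((X + 1) * p : ℕ) := by exact_mod_cast hk
      push_cast at this
      exact this
    constructor <;> linarith only [h1, h2]
  have hvb : ∀ k ≤ N₃, -K + 1 ≤ u k ∧ u k + gp ≤ A' := by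
    intro k hk
    rcases hcs k hk with h | ⟨j, hj, rfl⟩
    · exact hub k h
    · rw [huc j hj]
      have := hchb j hj
      exact ⟨by linarith only [this.1, hK], by linarith only [this.2, hXA]⟩
  obtain ⟨r', hr'⟩ : ∃ r' : ℝ, r' = 1 / p / 2 := ⟨_, rfl⟩
  have hr'0 : 0 < r' := by rw [hr']; positivity
  obtain ⟨K₁, hK₁, hcev⟩ := hcev R hε hεa (by linarith only [hK]) A' r' N₁ N₃ N₃ u Sc hAK hr'0
    (by omega) hvb hmn (fun k h1 h2 => by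
      rcases hcs k h2 with h | ⟨j, hj, rfl⟩
      · omega
      · rw [huc j hj]
        exact hxt j hj) hch hSc
  refine ⟨4 * K₁, by positivity, fun κ hκ => ?_⟩
  have hB1 := hcev (κ / 4) (by positivity)
  -- the times
  obtain ⟨d, hd⟩ : ∃ d : ℝ, d = 1 - t := ⟨_, rfl⟩
  have hKq : 2 * q ≤ K * q := mul_le_mul_of_nonneg_right hK hq.le
  have hd0 : 0 < d := by rw [hd]; linarith only [ht1, hKq, hq]
  have hd1 : d ≤ 1 := by rw [hd]; linarith only [ht0, hKq, hq]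
  have hL2 : 0 < Real.log 2 := Real.log_pos one_lt_two
  obtain ⟨ε₁, hε₁⟩ : ∃ ε₁ : ℝ, ε₁ = d * Real.log 2 / (2 * Cl) := ⟨_, rfl⟩
  have hCl0 : 0 < Cl := by linarith only [hCl]
  have hε₁0 : 0 < ε₁ := by rw [hε₁]; positivity
  have hε₁1 : Cl * ε₁ ≤ d * Real.log 2 / 2 := by
    rw [hε₁]
    exact le_of_eq (by field_simp)
  have htm := bas_ev (R.tmh.2 ε₁ hε₁0) (κ := 1 / K₁) (by positivity)
  have hpos : Bas S (fun _ F A => 0 < Pe F.p A) := ⟨1, one_pos, 0, fun J _ F A hA =>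
    R.tmh.1 1 J F A hA⟩
  have hGb := bas_ev (hG 1) (κ := 1 / (2 * K₁)) (by positivity)
  -- large J
  obtain ⟨n, hn⟩ : ∃ n, n = (X + 1) * p := ⟨_, rfl⟩
  have hyq : 0 < y₂ * q := mul_pos hy₂0 hq
  obtain ⟨J₁, hJ₁⟩ := exists_nat_ge ((8 + n + 8 * |κ₂|) / (y₂ * q))
  obtain ⟨J₂, hJ₂⟩ := exists_nat_ge (8 * (X + 1) / (τ * q))
  obtain ⟨J₃, hJ₃⟩ := exists_nat_ge (1 / (r' * q))
  obtain ⟨J₄, hJ₄⟩ := exists_nat_ge (4 * Cl / (d * Real.log 2))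
  refine Bas.mono (max (max J₁ J₂) (max J₃ J₄)) (((hB1.and htm).and hpos).and hGb) ?_
  rintro J hJ F A₀ ⟨⟨⟨hA1, hA2⟩, hA0⟩, hA3'⟩
  have hJ0 : (0 : ℝ) ≤ J := Nat.cast_nonneg J
  have hJa : 8 + n + 8 * |κ₂| ≤ y₂ * (q * J) := by
    have h1 : (J₁ : ℝ) ≤ J := by
      exact_mod_cast ((le_max_left _ _).trans (le_max_left _ _)).trans hJ
    have h2 := hJ₁.trans h1
    rw [div_le_iff₀ hyq] at h2
    linarith only [h2]
  have hJb : 8 * (X + 1) ≤ τ * (q * J) := by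
    have h1 : (J₂ : ℝ) ≤ J := by
      exact_mod_cast ((le_max_right _ _).trans (le_max_left _ _)).trans hJ
    have h2 := hJ₂.trans h1
    rw [div_le_iff₀ (mul_pos hτ0 hq)] at h2
    linarith only [h2]
  have hJc : 1 ≤ r' * (q * J) := by
    have h1 : (J₃ : ℝ) ≤ J := by
      exact_mod_cast ((le_max_left _ _).trans (le_max_right _ _)).trans hJ
    have h2 := hJ₃.trans h1
    rw [div_le_iff₀ (mul_pos hr'0 hq)] at h2
    linarith only [h2]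
  have hJd : 4 * Cl ≤ d * Real.log 2 * J := by
    have h1 : (J₄ : ℝ) ≤ J := by
      exact_mod_cast ((le_max_right _ _).trans (le_max_right _ _)).trans hJ
    have h2 := hJ₄.trans h1
    rw [div_le_iff₀ (by positivity)] at h2
    linarith only [h2]
  have hκa : 0 ≤ |κ₂| := abs_nonneg _
  have hn0 : (0 : ℝ) ≤ n := Nat.cast_nonneg n
  obtain ⟨Y, hY⟩ : ∃ Y : ℕ, Y = ⌊y₂ * (q * J)⌋₊ := ⟨_, rfl⟩
  have hYl : y₂ * (q * J) - 1 ≤ Y := by
    rw [hY]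
    linarith only [Nat.lt_floor_add_one (y₂ * (q * J))]
  have hYu : (Y : ℝ) ≤ y₂ * (q * J) := by
    rw [hY]
    exact Nat.floor_le (by positivity)
  have hnY : (((X + 1) * p : ℕ) : ℝ) ≤ 2 ^ Y := by
    rw [← hn]
    have h1 : n ≤ Y := by
      have : (n : ℝ) ≤ Y := by linarith only [hJa, hYl, hκa]
      exact_mod_cast this
    calc (n : ℝ) ≤ ((2 ^ n : ℕ) : ℝ) := by exact_mod_cast Nat.lt_two_pow_self.le
      _ = 2 ^ n := by push_cast; ring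
      _ ≤ 2 ^ Y := pow_le_pow_right₀ (by norm_num) h1
  have hmulq : ∀ {x y : ℝ}, x ≤ y → x * q ≤ y * q := fun h => mul_le_mul_of_nonneg_right h hq.le
  have hmulJ : ∀ {x y : ℝ}, x ≤ y → x * (J : ℝ) ≤ y * J := fun h =>
    mul_le_mul_of_nonneg_right h hJ0
  -- the radii
  obtain ⟨z, hz⟩ : ∃ z : ℕ → ℕ → ℕ, z = fun k k' => if u k + 1 / p ≤ u k' ∧ k' ≤ N₃ then
      ⌊(t + u k' * q) * J⌋₊ - ⌊(t + u k * q) * J⌋₊ else
      ⌊(t + A' * q) * J⌋₊ - ⌊(t + u k * q) * J⌋₊ := ⟨_, rfl⟩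
  have hpos' : ∀ k ≤ N₃, 0 ≤ t + u k * q := fun k hk => by
    have := hmulq (show -K ≤ u k by linarith only [(hvb k hk).1])
    linarith only [this, ht0, hq]
  have hflo : ∀ x y : ℝ, 0 ≤ t + x * q → x + 1 / p ≤ y →
      r' * q * J ≤ ((⌊(t + y * q) * J⌋₊ - ⌊(t + x * q) * J⌋₊ : ℕ) : ℝ) := by
    intro x y hx hxy
    have h1 : (⌊(t + x * q) * J⌋₊ : ℝ) ≤ (t + x * q) * J := Nat.floor_le (mul_nonneg hx hJ0)
    have h2 := (Nat.lt_floor_add_one ((t + y * q) * (J : ℝ))).le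
    have hpp : (0 : ℝ) < 1 / p := by positivity
    have h3 : ⌊(t + x * q) * J⌋₊ ≤ ⌊(t + y * q) * J⌋₊ :=
      Nat.floor_le_floor (hmulJ (by linarith only [hmulq (show x ≤ y by linarith only [hpp, hxy])]))
    rw [Nat.cast_sub h3]
    have h4 : (x + 1 / p) * q * J ≤ y * q * J := hmulJ (hmulq hxy)
    have h5 : 1 / (p : ℝ) = 2 * r' := by rw [hr']; ring
    rw [h5] at h4
    have h6 : (x + 2 * r') * q * J = x * q * J + 2 * (r' * (q * J)) := by ring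
    have h7 : r' * q * J = r' * (q * J) := by ring
    rw [h6] at h4
    rw [h7]
    linarith only [h1, h2, h4, hJc]
  have hz1 : ∀ k ≤ N₃, ∀ k' ≤ N₃, r' * q * J ≤ z k k' ∧
      z k k' ≤ ⌊(t + A' * q) * J⌋₊ - ⌊(t + u k * q) * J⌋₊ := by
    intro k hk k' hk'
    rw [hz]
    beta_reduce
    split_ifs with h1
    · refine ⟨hflo _ _ (hpos' k hk) h1.1, Nat.sub_le_sub_right (Nat.floor_le_floor
        (hmulJ ?_)) _⟩
      have := hmulq (show u k' ≤ A' by linarith only [(hvb k' hk').2, hgp])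
      linarith only [this]
    · exact ⟨hflo _ _ (hpos' k hk) (by linarith only [(hvb k hk).2, hpg]), le_rfl⟩
  have hz2 : ∀ k ≤ N₃, ∀ k' ≤ N₃, u k + 1 / p ≤ u k' → z k k' = ⌊(t + u k' * q) * J⌋₊ -
      ⌊(t + u k * q) * J⌋₊ := fun k _ k' hk' h => by
    rw [hz]
    exact if_pos ⟨h, hk'⟩
  obtain ⟨B, e, h, pp, b, g, gc, gT, g₀, G, H, Th, TH, Gt, Ht, hBA, hBP, E, W, hE0, hnum⟩ :=
    hA1 z hz1
  have hpn := Pe_nonneg F.isLaw
  have hB0 : 0 < Pe F.p B := by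
    by_contra hcon
    have h2 : Pe F.p B = 0 := le_antisymm (not_lt.1 hcon) (hpn _)
    rw [h2, mul_zero] at hBP
    linarith only [hBP, hA0]
  have hAJ : ⌊(t + A' * q) * J⌋₊ ≤ J := E.AJ
  have htJ : ⌊t * (J : ℝ)⌋₊ ≤ J := by
    have h1 : ⌊t * (J : ℝ)⌋₊ ≤ ⌊(1 : ℝ) * J⌋₊ :=
      Nat.floor_le_floor (hmulJ (by linarith only [ht1, hKq, hq]))
    rwa [one_mul, Nat.floor_natCast] at h1
  have hut' : ⌊(t + u it * q) * (J : ℝ)⌋₊ = ⌊t * (J : ℝ)⌋₊ := by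
    rw [hut, zero_mul, add_zero]
  have hCBy' : 4 * (CB * y₁) ≤ y₂ := by linarith only [hCBy, hy'a, hy₂0]
  have hy₁8 : 8 * y₁ ≤ y₂ := by linarith only [hy₁y, hy'a]
  have hy₂8 : 8 ≤ y₂ * (q * J) := by linarith only [hJa, hκa, hn0]
  have hqJ : 0 ≤ q * (J : ℝ) := by positivity
  obtain ⟨U, hU⟩ : ∃ U : ℝ, U = q * J := ⟨_, rfl⟩
  -- the final bound
  have hnat : ∀ {x : ℝ}, x ≤ 2 ^ (Ca * Y) * (2 ^ g₀ iK 2 / 2 ^ g₀ iK 3) →
      x ≤ 2 ^ ⌊y * q * J⌋₊ * 2 ^ g₀ iK 2 / 2 ^ g₀ iK 3 := by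
    intro x hx
    refine hx.trans ?_
    rw [mul_div_assoc]
    refine mul_le_mul_of_nonneg_right ?_ (by positivity)
    refine pow_le_pow_right₀ (by norm_num) (Nat.le_floor ?_)
    push_cast
    have h2 : (Ca : ℝ) * Y ≤ Ca * (y₂ * (q * J)) :=
      mul_le_mul_of_nonneg_left hYu (by linarith only [hCaR])
    have h3 := mul_le_mul_of_nonneg_right hy₂a hqJ
    have h4 : 0 ≤ y * (q * J) := by positivity
    have h5 : y * q * J = y * (q * J) := by ring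
    have h6 : (Ca + 1) * y₂ * (q * J) = Ca * (y₂ * (q * J)) + y₂ * (q * J) := by ring
    have h7 : 0 ≤ y₂ * (q * J) := by positivity
    rw [h5]
    linarith only [h2, h3, h4, h6, h7]
  have huw : u (N₁ + 1) = -1 := by
    have := huc 0 (Nat.zero_le _)
    rw [add_zero, Nat.cast_zero, zero_div, add_zero] at this
    exact this
  have hwq : t + u (N₁ + 1) * q = t - q := by rw [huw]; ring
  have hev := hE0 (N₁ + 1) (by omega) (by omega)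
  beta_reduce at hev
  rw [hwq] at hev
  -- the coefficient bounds
  obtain ⟨r1, r2⟩ := rem_num (J := J) hCl hd1 hε₁1 hJd
  have hwJ : (⌊(t - q) * (J : ℝ)⌋₊ : ℝ) ≤ (t - q) * J := Nat.floor_le (by
    have : 0 ≤ t - q := by linarith only [ht0, hKq, hq]
    positivity)
  have hwJ' : ⌊(t - q) * (J : ℝ)⌋₊ ≤ J :=
    le_trans (Nat.floor_le_floor (hmulJ (by linarith only [hq]))) htJ
  obtain ⟨B₁, b1, b2, b3⟩ := hlbs (K := Dc) (E := 1) (p := pl) (s := sl) hB0 hev hDc hwJ'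
    (θ := ε₁ * J) (by positivity) (hA2 B hBA (by
      rw [div_mul_eq_mul_div, one_mul, div_le_iff₀ hK₁]
      linarith only [hBP]) hB0) (by
      refine r1.trans (mul_le_mul_of_nonneg_right ?_ hL2.le)
      rw [hd]
      have h9 : (1 - t) * (J : ℝ) = J - t * J := by ring
      have h10 : (t - q) * (J : ℝ) = t * J - q * J := by ring
      linarith only [hwJ, h9, h10, hqJ]) r2 (fun l hl => by
      have h1 := (W.sds (N₁ + 1) (by omega) l hl).1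
      rw [hwq] at h1
      refine Nat.floor_le_of_le (le_trans (hmulJ ?_) h1)
      have h2 := (hpl l hl).1
      have h3 := hmulq (show y₁ ≤ yp by linarith only [hy₁y, hy'b])
      linarith only [h2, h3]) (fun l hl => by
      have h1 := (W.sds (N₁ + 1) (by omega) l hl).2
      rw [hwq] at h1
      exact h1.trans (hmulJ (hpl l hl).2))
  have hB₁0 : 0 < Pe F.p B₁ := by linarith only [b2, hB0]
  -- the chain
  have hnpos : 1 ≤ n := by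
    rw [hn]
    exact Nat.mul_pos (by omega) hp0
  obtain ⟨f, hf⟩ : ∃ f : ℕ → ℕ, f = fun k => N₁ + 1 + min k n := ⟨_, rfl⟩
  have hfk : ∀ k ≤ n, f k = N₁ + 1 + k := fun k hk => by
    rw [hf]
    show N₁ + 1 + min k n = _
    rw [min_eq_left hk]
  have hfa : ∀ k, f k ≤ N₃ := fun k => by
    rw [hf]
    show N₁ + 1 + min k n ≤ _
    have := Nat.min_le_right k n
    omega
  have hf0 : f 0 = N₁ + 1 := hfk 0 (Nat.zero_le _)
  have ch : ChF u N₃ n p (-1) K f := by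
    refine ⟨hp0, fun k _ => hfa k, fun k hk => by rw [hfk k hk, huc k (by omega)],
      fun k hk => ?_⟩
    rw [hfk k hk, huc k (by omega)]
    have h1 := hchb k (by omega)
    have h2 : (X : ℝ) ≤ K := by linarith only [hXA, hAK, hgp]
    rw [abs_le]
    exact ⟨by linarith only [h1.1, hK], by linarith only [h1.2, h2]⟩
  have hnp : (n : ℝ) / p = X + 1 := by
    rw [hn]
    push_cast
    field_simp
  have hzf : ∀ {n' : ℕ} {u₀ : ℝ} {f' : ℕ → ℕ}, ChF u N₃ n' p u₀ K f' → ∀ k < n',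
      z (f' k) (f' (k + 1)) = ⌊(t + u (f' (k + 1)) * q) * J⌋₊ - ⌊(t + u (f' k) * q) * J⌋₊ :=
    fun ch k hk => hz2 _ (ch.fN k hk.le) _ (ch.fN (k + 1) hk) (ch.le hk).le
  obtain ⟨n', hn'⟩ : ∃ n', n' = (X' + 1) * p := ⟨_, rfl⟩
  have hn'n : n' ≤ n := by
    rw [hn', hn]
    exact Nat.mul_le_mul_right _ (by omega)
  have hn'p : (n' : ℝ) / p = X' + 1 := by
    rw [hn']
    push_cast
    field_simp
  have hnn2 : (n : ℝ) ≤ 2 ^ Y := by rw [hn]; exact hnY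
  have hnn2' : (n' : ℝ) ≤ 2 ^ Y := le_trans (by exact_mod_cast hn'n) hnn2
  have hτJ : 4 ≤ τ / 2 * (q * J) := by
    have : (8 : ℝ) ≤ 8 * (X + 1) := by linarith only [hXR]
    linarith only [this, hJb]
  -- one ball of the chain
  have hks : ∀ {x : ℝ} {ξ₀ : ℝ}, -1 ≤ x → ξ₀ ≤ (Sl 3 - Sm) * (x + 1) →
      ξ₀ ≤ (Sl 3 - Sm) * ((⌊(x + 1) * p⌋₊ : ℝ) / p) + 2 * (β / p) := by
    intro x ξ₀ hx hξ₀
    have hksl : (x + 1) * p - 1 ≤ (⌊(x + 1) * p⌋₊ : ℝ) := by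
      linarith only [Nat.lt_floor_add_one ((x + 1) * (p : ℝ))]
    have h1 : (x + 1) - 1 / p ≤ (⌊(x + 1) * p⌋₊ : ℝ) / p := by
      rw [le_div_iff₀ hpR]
      have : (x + 1 - 1 / p) * p = (x + 1) * p - 1 := by field_simp
      linarith only [this, hksl]
    have h2 := mul_le_mul_of_nonneg_left h1 (show 0 ≤ Sl 3 - Sm by linarith only [hsb])
    have h3 : (Sl 3 - Sm) * (x + 1 - 1 / p) = (Sl 3 - Sm) * (x + 1) -
      (Sl 3 - Sm) * (1 / p) := by ring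
    have h4 : (Sl 3 - Sm) * (1 / p) ≤ β * (1 / p) :=
      mul_le_mul_of_nonneg_right (by
        have := (abs_le.1 (hβ1 3 le_rfl)).2
        linarith only [this, hSm0]) (by positivity)
    have h5 : β * (1 / p) = β / p := by ring
    have h6 : 0 ≤ β / p := by positivity
    linarith only [hξ₀, h2, h3, h4, h5, h6]
  have hksn : ∀ {x : ℝ} {X₁ : ℕ}, -1 ≤ x → x ≤ X₁ → ⌊(x + 1) * p⌋₊ ≤ (X₁ + 1) * p := by
    intro x X₁ hx hxX
    have hksu : (⌊(x + 1) * p⌋₊ : ℝ) ≤ (x + 1) * p :=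
      Nat.floor_le (mul_nonneg (by linarith only [hx]) hpR.le)
    have h1 : (x + 1) * (p : ℝ) ≤ (X₁ + 1) * p :=
      mul_le_mul_of_nonneg_right (by linarith only [hxX]) hpR.le
    have h2 : (⌊(x + 1) * p⌋₊ : ℝ) ≤ (((X₁ + 1) * p : ℕ) : ℝ) := by
      push_cast
      linarith only [hksu, h1]
    exact_mod_cast h2
  obtain ⟨ks, hks0⟩ : ∃ ks : ℕ, ks = ⌊(vj + 1) * p⌋₊ := ⟨_, rfl⟩
  obtain ⟨ks', hks'0⟩ : ∃ ks' : ℕ, ks' = ⌊(vj' + 1) * p⌋₊ := ⟨_, rfl⟩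
  have hksn1 : ks ≤ n := by
    rw [hks0, hn]
    exact hksn MB.j0 MB.j1
  have hksn' : ks' ≤ n' := by
    rw [hks'0, hn']
    exact hksn MA.j0 MA.j1
  have hgrB := hgrd R W (f := f) (n := n) (p := p) (ks := ks) (Y := Y) (β := β) (Sm := Sm)
    (qr := qr - σ) (ξ := ξ) (τ := τ / 2) ch (hzf ch) hε hY hCBy' hεb hp1 hy₂8 hnn2 hβ1 hSm0 hsb hsm
    hksn1 (by rw [hnp]; linarith only [hq1B, hσ1])
    (by rw [hnp]; linarith only [hq2B, hσ0]) hξ0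
    (by linarith only [hσ3]) (by
      rw [hks0]
      exact hks MB.j0 hj2B) hτJ
  have ch' := ch.res hn'n
  have hgrA := hgrd R W (f := f) (n := n') (p := p) (ks := ks') (Y := Y) (β := β) (Sm := Sm)
    (qr := qr' - σ) (ξ := ξ') (τ := τ / 2) ch' (hzf ch') hε hY hCBy' hεb hp1 hy₂8 hnn2' hβ1 hSm0 hsb
    hsm hksn' (by rw [hn'p]; linarith only [hq1A, hσ1])
    (by rw [hn'p]; linarith only [hq2A, hσ0]) hξ'0
    (by linarith only [hσ4]) (by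
      rw [hks'0]
      exact hks MA.j0 hj2A) hτJ
  have hCgu : (2 : ℝ) ^ (Cg * Y) ≤ 2 ^ (Cu * Y) :=
    pow_le_pow_right₀ (by norm_num) (Nat.mul_le_mul_right _ (by omega))
  have hgrB' := grdE_sub (grdE_monoU hgrB hCgu) b1
  have hgrA' := grdE_sub (grdE_monoU hgrA hCgu) b1
  rw [hf0, sub_mul] at hgrB' hgrA'
  -- the difference of the gradients
  have hci : Set.InjOn c (Set.Iio 3) := R.inj.mono (Set.Iio_subset_Iio (by norm_num))
  have hdep : ∀ k ≤ N₃, ∀ y l, DepC c l (G k y l) := fun k hk y l => (W.ev k hk).ball.depG y l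
  have ch2 : ChF u N₃ (n - n') p (-1 + (n' : ℕ) / p) K (fun k => f (n' + k)) :=
    ⟨hp0, fun k hk => hfa _, fun k hk => by
      rw [ch.fu (n' + k) (by omega)]
      push_cast
      ring, fun k hk => ch.fK (n' + k) (by omega)⟩
  have hufn' : u (f n') = X' := by
    rw [ch.fu n' hn'n, hn'p]
    ring
  have hU0 : 0 ≤ U := by rw [hU]; exact hqJ
  have hnumW : ∀ k ≤ N₃, ∀ l ≤ 3, L l (t + u k * q) (t + u k * q) * J - y₁ * U ≤ g₀ k l ∧
      (g₀ k l : ℝ) ≤ L l (t + u k * q) (t + u k * q) * J := fun k hk l hl => by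
    obtain ⟨h1, h2⟩ := W.sds k hk l hl
    refine ⟨?_, h2⟩
    have : (L l (t + u k * q) (t + u k * q) - y₁ * q) * J =
        L l (t + u k * q) (t + u k * q) * J - y₁ * U := by rw [hU]; ring
    linarith only [this, h1]
  have hNw : N₁ + 1 ≤ N₃ := by omega
  -- the numbers of the difference
  have hexp : ∀ (l Cx : ℕ), l ≤ 2 → Cx + 2 ≤ Cu → Sl l ≤ Sl 1 →
      g₀ (N₁ + 1) 3 + (Cx * Y + g₀ (f n') l) + ⌊ξ * q * J⌋₊ ≤
        Cu * Y + g₀ (N₁ + 1) l + g₀ (f n') 3 := by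
    intro l Cx hl hCx hSl1
    have l1 := (hnumW (N₁ + 1) hNw 3 le_rfl).2
    have l2 := (hnumW (N₁ + 1) hNw l (by omega)).1
    have l3 := (hnumW (f n') (hfa n') l (by omega)).2
    have l4 := (hnumW (f n') (hfa n') 3 le_rfl).1
    have hw1 : |u (N₁ + 1)| ≤ K := by
      rw [huw, abs_neg, abs_one]
      linarith only [hK]
    have d1 := (RecQ.dLd R (show l ≤ 3 by omega) (ch.fK n' hn'n) hw1 J).2
    have d2 := (RecQ.dLd R (le_refl 3) (ch.fK n' hn'n) hw1 J).1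
    rw [← hU] at d1 d2
    rw [hufn'] at d1 d2 l3 l4
    rw [huw] at d1 d2 l1 l2
    have x1 : (⌊ξ * q * J⌋₊ : ℝ) ≤ ξ * U := by
      have : ξ * q * J = ξ * U := by rw [hU]; ring
      rw [this]
      exact Nat.floor_le (mul_nonneg hξ0 hU0)
    have x2 := mul_le_mul_of_nonneg_right hdf hU0
    have x9 : (Sl 3 - Sl 1) * (X' + 1) * U ≤ (Sl 3 - Sl l) * (X' + 1) * U :=
      mul_le_mul_of_nonneg_right (mul_le_mul_of_nonneg_right (by linarith only [hSl1])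
        (by linarith only [hX'R])) hU0
    have e3 : (Sl 3 - Sl l) * (X' + 1) * U = Sl 3 * ((X' - -1) * U) - Sl l * ((X' - -1) * U) := by
      ring
    have e4 : (ξ + μ + τ) * U = ξ * U + μ * U + τ * U := by ring
    rw [e3] at x9
    rw [e4] at x2
    have x3 : 0 ≤ μ * U := mul_nonneg hμ0.le hU0
    have x4 : 4 * (y₂ * U) ≤ τ * U := by
      have := mul_le_mul_of_nonneg_right hy₂c hU0
      linarith only [this]
    have x5 : y₁ * U ≤ y₂ * U / 8 := by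
      have := mul_le_mul_of_nonneg_right hy₁8 hU0
      linarith only [this]
    have x6 : ε * U ≤ y₂ * U / 16 := by
      have := mul_le_mul_of_nonneg_right hεb hU0
      linarith only [this]
    have x7 : 0 ≤ y₂ * U := mul_nonneg hy₂0.le hU0
    have hCxR : (Cx : ℝ) ≤ Cu := by
      have : Cx ≤ Cu := by omega
      exact_mod_cast this
    have x8 : (Cx * Y : ℝ) ≤ Cu * Y := mul_le_mul_of_nonneg_right hCxR (Nat.cast_nonneg Y)
    have key : ((g₀ (N₁ + 1) 3 + (Cx * Y + g₀ (f n') l) + ⌊ξ * q * J⌋₊ : ℕ) : ℝ) ≤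
        ((Cu * Y + g₀ (N₁ + 1) l + g₀ (f n') 3 : ℕ) : ℝ) := by
      push_cast
      linarith only [l1, l2, l3, l4, d1, d2, x1, x2, x9, x3, x4, x5, x6, x7, x8]
    exact_mod_cast key
  have hfinx : ∀ (l Cx : ℕ) (x : ℝ), l ≤ 2 → Cx + 2 ≤ Cu → Sl l ≤ Sl 1 →
      |x| ≤ 2 ^ (Cx * Y) * (2 ^ g₀ (f n') l / 2 ^ g₀ (f n') 3) →
      |2 ^ g₀ (N₁ + 1) 3 / 2 ^ g₀ (N₁ + 1) l * x| ≤ 2 ^ (Cu * Y) / 2 ^ ⌊ξ * q * J⌋₊ := by
    intro l Cx x hl hCx hSl1 hx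
    have hpp : (0 : ℝ) < 2 ^ g₀ (N₁ + 1) 3 / 2 ^ g₀ (N₁ + 1) l := by positivity
    rw [abs_mul, abs_of_pos hpp]
    refine (mul_le_mul_of_nonneg_left hx hpp.le).trans ?_
    rw [div_mul_eq_mul_div, div_le_div_iff₀ (by positivity) (by positivity), mul_div_assoc',
      mul_div_assoc', div_mul_eq_mul_div, div_le_iff₀ (by positivity), ← pow_add, ← pow_add,
      ← pow_add, ← pow_add, ← pow_add]
    refine pow_le_pow_right₀ (by norm_num) ?_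
    have := hexp l Cx hl hCx hSl1
    omega
  have hdd : ∀ ω, B₁ ω → ∀ l, 1 ≤ l → l ≤ 2 →
      |gnh F c 3 (g₀ (N₁ + 1)) (G (f 0)) (G (f n)) ω l -
      gnh F c 3 (g₀ (N₁ + 1)) (G (f 0)) (G (f n')) ω l| ≤ 2 ^ (Cu * Y) / 2 ^ ⌊ξ * q * J⌋₊ := by
    intro ω hω l hl1 hl2
    have hl : l = 1 ∨ l = 2 := by omega
    rcases hl with rfl | rfl
    · -- the place one
      have h1 := hgn1 R W (f := f) (n := n) (n' := n') (p := p) (Y := Y) (u₀ := -1) (β := β)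
        (y₂ := y₂) ch hn'n (hzf ch) hε hY hCBy' hy₁8 hεb hp1 hy₂8 hnn2 hβ1 hS21 hS13 ω (b1 ω hω)
      rw [gnh31 hci (g₀ (N₁ + 1)) (hdep (f 0) (hfa 0)) (hdep (f n) (hfa n)),
        gnh31 hci (g₀ (N₁ + 1)) (hdep (f 0) (hfa 0)) (hdep (f n') (hfa n')), ← mul_sub]
      refine hfinx 1 Cn _ (by norm_num) (by omega) le_rfl ?_
      refine le_trans (le_of_eq ?_) h1
      congr 1
      ring
    · -- the place two
      have h1 := hgrt R W (f := fun k => f (n' + k)) (n := n - n') (p := p) (k₀ := f n') (Y := Y)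
        (u₀ := -1 + (n' : ℕ) / p) (β := β) (y₂ := y₂) ch2 (hfa n') (ch.fK n' hn'n) (hzf ch2) hε
        hY hCBy' hy₁8 hεb hp1 hy₂8 (le_trans (by exact_mod_cast Nat.sub_le _ _) hnn2) hβ1
        (fun k hk => by
          show (Sl 2 - Sl 3) * (u (f (n' + k)) - u (f n')) ≤ 0
          rw [ch.fu (n' + k) (by omega), ch.fu n' hn'n]
          push_cast
          have h2 : (0 : ℝ) ≤ k / p := by positivity
          have h3 : 0 ≤ (Sl 3 - Sl 2) * (k / p) :=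
            mul_nonneg (by linarith only [hS21, hS13]) h2
          have e1 : (Sl 2 - Sl 3) * (-1 + ((n' : ℝ) + k) / p - (-1 + n' / p)) =
            -((Sl 3 - Sl 2) * (k / p)) := by ring
          rw [e1]
          linarith only [h3]) ω (b1 ω hω)
      beta_reduce at h1
      rw [show n' + (n - n') = n by omega, add_zero] at h1
      have g1 := gnh_last (show 1 ≤ 3 by norm_num) hci (g₀ (N₁ + 1)) (hdep (f 0) (hfa 0))
        (hdep (f n) (hfa n)) ω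
      have g2 := gnh_last (show 1 ≤ 3 by norm_num) hci (g₀ (N₁ + 1)) (hdep (f 0) (hfa 0))
        (hdep (f n') (hfa n')) ω
      norm_num only at g1 g2 h1
      rw [g1, g2, ← mul_sub]
      refine hfinx 2 Ct _ le_rfl (by omega) hS21 ?_
      refine le_trans (le_of_eq ?_) h1
      congr 1
      ring
  have hcl : ∀ (kk : ℕ) (x : ℝ), kk ≤ n → (kk : ℝ) / p ≤ x + 1 →
      ClU F 4 kk ⌊(t + x * q) * J⌋₊ B₁ (fun k => G (f k)) := by
    intro kk x hkk hx k hk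
    refine ⟨⌊(t + u (f k) * q) * J⌋₊, H (f k), Nat.floor_le_floor (hmulJ ?_), fun ω hω l hl =>
      (W.ev (f k) (hfa k)).cls ω (b1 ω hω) l (by omega)⟩
    have h1 : u (f k) ≤ x := by
      rw [ch.fu k (hk.trans hkk)]
      have : (k : ℝ) / p ≤ kk / p := div_le_div_of_nonneg_right (by exact_mod_cast hk) hpR.le
      linarith only [this, hx]
    linarith only [hmulq h1]
  have hflp : ∀ {x : ℝ}, -1 ≤ x → (⌊(x + 1) * p⌋₊ : ℝ) / p ≤ x + 1 := by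
    intro x hx
    rw [div_le_iff₀ hpR]
    exact Nat.floor_le (mul_nonneg (by linarith only [hx]) hpR.le)
  obtain ⟨Wm, w1, w2, mu, w3, -, w4⟩ := hA3' B₁ (fun ω hω => hBA ω (b1 ω hω)) (by
      rw [div_mul_eq_mul_div, one_mul, div_le_iff₀ (by positivity)]
      have h1 := mul_le_mul_of_nonneg_left b2 hK₁.le
      linarith only [h1, hBP]) ks' n' ks n (g₀ (N₁ + 1)) (fun k => G (f k)) (H (N₁ + 1))
      (2 ^ (Cu * Y)) (by
      rw [hf0]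
      exact b3) (fun k a l => hdep (f k) (hfa k) a l) (hcl ks' vj' (by omega) (by
      rw [hks'0]
      exact hflp MA.j0)) (hcl n' X' hn'n (by rw [hn'p])) hksn' (hcl ks vj hksn1 (by
      rw [hks0]
      exact hflp MB.j0)) (hcl n X le_rfl (by rw [hnp])) hksn1 hgrA' hgrB' hdd (by
      rw [← Real.rpow_natCast]
      refine Real.rpow_le_rpow_of_exponent_le one_le_two ?_
      push_cast
      have h1 : (Cu : ℝ) * Y ≤ Cu * (y₂ * (q * J)) := mul_le_mul_of_nonneg_left hYu hCu0.le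
      have h2 := mul_le_mul_of_nonneg_right hy₂b hqJ
      have h3 := mul_le_mul_of_nonneg_right hσ2 hqJ
      have h4 : (μ * q / 2 - 2 * (σ * q)) * J = μ * (q * J) / 2 - 2 * (σ * (q * J)) := by ring
      rw [h4]
      linarith only [h1, h2, h3])
  have hgh := good_half F.isLaw hB₁0 w4
  obtain ⟨B₂, hB₂⟩ : ∃ B₂ : F.Ω → Prop, B₂ = fun ω => B₁ ω ∧
      |gnh F c 3 (g₀ (N₁ + 1)) (G (f 0)) (G (f n)) ω 2 -
        (mu (slam F Wm ω)).eval (rt F Wm ω)| ≤ (2 : ℝ) ^ (-(κ₂ * ⌊ξ * q * J⌋₊)) := ⟨_, rfl⟩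
  have hP2 : Pe F.p B₁ / 2 ≤ Pe F.p B₂ := by
    rw [hB₂]
    exact hgh
  have s1 : Sub B₂ B₁ := fun ω hω => by
    rw [hB₂] at hω
    exact hω.1
  have s2 : Sub B₂ B := fun ω hω => b1 ω (s1 ω hω)
  have hWt : Wm ≤ ⌊t * (J : ℝ)⌋₊ := by
    refine Nat.le_floor (w2.trans (hmulJ ?_))
    have := hmulq MB.d1
    linarith only [this]
  have hmuE := hmuA R W (N₁ := N₁) (X := X) (iK := iK) (W := Wm) hp0 hX2 hN₃ hiK huK huc
    (by linarith only [hXA, hAK, hgp]) hz2 hε hY hCBy' hy₁8 hεb hp1 hy₂8 hnY hβ1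
    (show Sl 2 ≤ Sl 3 by linarith only [hS21, hS13]) hκ20 (by
      have := le_abs_self κ₂
      linarith only [this, hJa, hn0]) hξ0 (show (Sl 3 - Sl 2) * 2 ≤ κ₂ * ξ from hkx) htJ hWt mu B₂ s2
      (fun ω hω => by
      rw [hB₂] at hω
      have h1 := hω.2
      rw [hf0, hfk n le_rfl, hn] at h1
      exact h1)
  refine ⟨N₃, z, B₂, e, h, pp, g, gc, gT, g₀, G, H, Th, TH, Gt, Ht,
    fun s => muC c ⌊t * J⌋₊ Wm ⌊(t + u (N₁ + 1) * q) * J⌋₊ 3 (g₀ (N₁ + 1)) mu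
      (H (N₁ + 1)) s, fun ω hω => hBA ω (s2 ω hω), ?_, ?_,
    ⟨by omega, fun k hk k' hk' h9 => hz2 k (by omega) k' (by omega) h9⟩, ?_, ?_, hnum⟩
  · have h1 := mul_le_mul_of_nonneg_left (show Pe F.p B ≤ 4 * Pe F.p B₂ by
      linarith only [b2, hP2]) hK₁.le
    linarith only [h1, hBP]
  · exact E.sb (B' := B₂) (κ₁ := 1 / 4) (κ₂ := κ) s2 (by linarith only [b2, hP2]) hκ.le
      (by linarith only [])
  · intro s
    exact (muC_deg w3 (fun s => (W.ev (N₁ + 1) (by omega)).ball.degH s 3) s).trans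
      (max_le (by omega) (by omega))
  · intro ω hω
    rw [hut']
    exact hnat (hmuE ω hω)

end Pool.TSC88
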